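import Mathlib

set_option autoImplicit false

namespace Pool.Agent.Results.MP_84806a_co.LinearDiameter

open Function

/-! ### Transitive self-maps -/

def Tr {α : Type*} (f : α → α) : Prop := ∀ x y, ∃ k : ℕ, f^[k] x = y

section tr
variable {α : Type*} {f : α → α}

theorem Tr.surj (h : Tr f) : Surjective f := by
  intro y
  obtain ⟨k, hk⟩ := h (f y) y
  refine ⟨f^[k] y, ?_⟩
  rw [← iterate_succ_apply' f k y, iterate_succ_apply]
  exact hk

theorem Tr.inj [Finite α] (h : Tr f) : Injective f :=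
  Finite.injective_iff_surjective.2 h.surj

theorem Tr.minPer [Fintype α] (h : Tr f) (x : α) : minimalPeriod f x = Fintype.card α := by
  classical
  have hpos : 0 < minimalPeriod f x := by
    obtain ⟨k, hk⟩ := h (f x) x
    exact minimalPeriod_pos_of_mem_periodicPts (mk_mem_periodicPts (Nat.succ_pos k) hk)
  apply le_antisymm
  · have hinj : Injective (fun k : Fin (minimalPeriod f x) => f^[(k : ℕ)] x) := by
      intro a b hab
      exact Fin.ext (iterate_injOn_Iio_minimalPeriod a.2 b.2 hab)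
    simpa using Fintype.card_le_of_injective _ hinj
  · have hsur : Surjective (fun k : Fin (minimalPeriod f x) => f^[(k : ℕ)] x) := by
      intro y
      obtain ⟨k, hk⟩ := h x y
      refine ⟨⟨k % minimalPeriod f x, Nat.mod_lt _ hpos⟩, ?_⟩
      simp only
      rw [iterate_mod_minimalPeriod_eq]
      exact hk
    simpa using Fintype.card_le_of_surjective _ hsur

theorem Tr.dvd [Fintype α] (h : Tr f) {x : α} {j : ℕ} (hj : f^[j] x = x) :
    Fintype.card α ∣ j := by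
  rw [← h.minPer x]
  exact IsPeriodicPt.minimalPeriod_dvd hj

theorem Tr.card_iter [Fintype α] (h : Tr f) (x : α) : f^[Fintype.card α] x = x := by
  rw [← h.minPer x]
  exact isPeriodicPt_minimalPeriod f x

theorem Tr.ne [Fintype α] (h : Tr f) {x : α} {j : ℕ} (h0 : 0 < j)
    (hj : j < Fintype.card α) : f^[j] x ≠ x := by
  intro he
  have := Nat.le_of_dvd h0 (h.dvd he)
  omega

theorem Tr.exists_lt [Fintype α] (h : Tr f) (x y : α) : ∃ k < Fintype.card α, f^[k] x = y := by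
  obtain ⟨k, hk⟩ := h x y
  have hpos : 0 < Fintype.card α := Fintype.card_pos_iff.2 ⟨x⟩
  refine ⟨k % Fintype.card α, Nat.mod_lt _ hpos, ?_⟩
  rw [← h.minPer x, iterate_mod_minimalPeriod_eq]
  exact hk

end tr

/-! ### Matchings, validity, swaps -/

def IsM {α : Type*} (σ : α → α) : Prop := ∀ x, σ (σ x) = x ∧ σ x ≠ x

theorem IsM.inj {α : Type*} {σ : α → α} (h : IsM σ) : Injective σ := by
  intro x y hxy
  rw [← (h x).1, ← (h y).1, hxy]

def Valid {α : Type*} (τ σ : α → α) : Prop := IsM σ ∧ Tr (τ ∘ σ)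

def Sw {α : Type*} (σ σ' : α → α) : Prop :=
  ∃ A C, A ≠ C ∧ A ≠ σ C ∧ σ' A = C ∧ σ' C = A ∧ σ' (σ A) = σ C ∧ σ' (σ C) = σ A ∧
    ∀ x, x ≠ A → x ≠ C → x ≠ σ A → x ≠ σ C → σ' x = σ x

theorem Sw.symm {α : Type*} {σ σ' : α → α} (hσ : IsM σ) (hσ' : IsM σ') (h : Sw σ σ') :
    Sw σ' σ := by
  obtain ⟨A, C, h1, h2, h3, h4, h5, h6, h7⟩ := h
  refine ⟨A, σ A, (hσ A).2.symm, ?_, rfl, (hσ A).1, ?_, ?_, ?_⟩
  · rw [h5]; exact h2
  · rw [h3, h5]
  · rw [h5, (hσ C).1, h3]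
  · intro x hx1 hx2 hx3 hx4
    rw [h3] at hx3
    rw [h5] at hx4
    exact (h7 x hx1 hx3 hx2 hx4).symm

inductive Rc {α : Type*} (τ : α → α) : ℕ → (α → α) → (α → α) → Prop
  | refl (k : ℕ) (σ : α → α) : Rc τ k σ σ
  | step {k : ℕ} {σ ρ σ' : α → α} (h1 : Sw σ ρ) (h2 : Valid τ ρ) (h3 : Rc τ k ρ σ') :
      Rc τ (k + 1) σ σ'

theorem Rc.mono {α : Type*} {τ : α → α} {k l : ℕ} {σ σ' : α → α} (h : Rc τ k σ σ')
    (hkl : k ≤ l) : Rc τ l σ σ' := by
  induction h generalizing l with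
  | refl k σ => exact Rc.refl _ _
  | step h1 h2 _ ih =>
    obtain ⟨l', rfl⟩ : ∃ l', l = l' + 1 := ⟨l - 1, by omega⟩
    exact Rc.step h1 h2 (ih (by omega))

theorem Rc.trans {α : Type*} {τ : α → α} {k l : ℕ} {σ ρ σ' : α → α} (h : Rc τ k σ ρ)
    (h' : Rc τ l ρ σ') : Rc τ (k + l) σ σ' := by
  induction h with
  | refl k σ => exact h'.mono (by omega)
  | @step k σ ρ _ h1 h2 _ ih =>
    have := Rc.step h1 h2 (ih h')
    rw [show k + 1 + l = k + l + 1 by omega]
    exact this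

theorem Rc.valid {α : Type*} {τ : α → α} {k : ℕ} {σ σ' : α → α} (h : Rc τ k σ σ')
    (hv : Valid τ σ) : Valid τ σ' := by
  induction h with
  | refl k σ => exact hv
  | step h1 h2 _ ih => exact ih h2

theorem Rc.symm {α : Type*} {τ : α → α} {k : ℕ} {σ σ' : α → α} (h : Rc τ k σ σ')
    (hv : Valid τ σ) : Rc τ k σ' σ := by
  induction h with
  | refl k σ => exact Rc.refl _ _
  | step h1 h2 _ ih =>
    exact (ih h2).trans (Rc.step (h1.symm hv.1 h2.1) hv (Rc.refl 0 _))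

/-! ### First returns -/

def FR {α : Type*} (f : α → α) (S : Set α) (x y : α) : Prop :=
  ∃ k : ℕ, f^[k + 1] x = y ∧ ∀ l < k, f^[l + 1] x ∉ S

section fr
variable {α : Type*} {f : α → α} {S : Set α}

theorem FR.uniq {x y z : α} (hy : y ∈ S) (hz : z ∈ S) (h1 : FR f S x y) (h2 : FR f S x z) :
    y = z := by
  obtain ⟨k, hk, hk'⟩ := h1
  obtain ⟨l, hl, hl'⟩ := h2
  rcases lt_trichotomy k l with h | h | h
  · exact absurd (hk ▸ hy) (hl' k h)
  · subst h; rw [← hk, ← hl]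
  · exact absurd (hl ▸ hz) (hk' l h)

theorem FR.one {x y : α} (h : f x = y) : FR f S x y :=
  ⟨0, h, by intro l hl; omega⟩

theorem FR.trans {x y z : α} (h1 : FR f S x y) (hy : y ∉ S) (h2 : FR f S y z) :
    FR f S x z := by
  obtain ⟨k, hk, hk'⟩ := h1
  obtain ⟨l, hl, hl'⟩ := h2
  refine ⟨k + 1 + l, ?_, ?_⟩
  · rw [show k + 1 + l + 1 = (l + 1) + (k + 1) by omega, iterate_add_apply, hk, hl]
  · intro i hi
    rcases lt_trichotomy i k with h | h | h
    · exact hk' i h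
    · subst h; rw [hk]; exact hy
    · obtain ⟨j, rfl⟩ : ∃ j, i = k + 1 + j := ⟨i - (k + 1), by omega⟩
      rw [show k + 1 + j + 1 = (j + 1) + (k + 1) by omega, iterate_add_apply, hk]
      exact hl' j (by omega)

theorem FR.mono {S' : Set α} (hS : S ⊆ S') {x y : α} (h : FR f S' x y) : FR f S x y := by
  obtain ⟨k, hk, hk'⟩ := h
  exact ⟨k, hk, fun l hl hm => hk' l hl (hS hm)⟩

theorem FR.exists (hf : Tr f) {z : α} (hz : z ∈ S) (x : α) : ∃ y ∈ S, FR f S x y := by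
  classical
  have hex : ∃ k : ℕ, f^[k + 1] x ∈ S := by
    obtain ⟨k, hk⟩ := hf (f x) z
    exact ⟨k, by rw [iterate_succ_apply, hk]; exact hz⟩
  refine ⟨f^[Nat.find hex + 1] x, Nat.find_spec hex, Nat.find hex, rfl, ?_⟩
  intro l hl
  exact Nat.find_min hex hl

theorem FR.congr {g : α → α} (hfg : ∀ z, z ∉ S → f z = g z) {x x' y : α} (hx : f x = g x')
    (h : FR g S x' y) : FR f S x y := by
  obtain ⟨k, hk, hk'⟩ := h
  have key : ∀ l ≤ k, f^[l + 1] x = g^[l + 1] x' := by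
    intro l
    induction l with
    | zero => intro _; exact hx
    | succ l ih =>
      intro hl
      have h1 := ih (by omega)
      rw [iterate_succ_apply' f, iterate_succ_apply' g, h1]
      exact hfg _ (hk' l (by omega))
  refine ⟨k, ?_, ?_⟩
  · rw [key k le_rfl]; exact hk
  · intro l hl
    rw [key l (by omega)]
    exact hk' l hl

end fr

theorem hit_congr {α : Type*} {f g : α → α} {S : Set α} (hfg : ∀ z, z ∉ S → f z = g z)
    {x : α} (h : ∃ k : ℕ, g^[k] x ∈ S) : ∃ k : ℕ, f^[k] x ∈ S := by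
  classical
  have key : ∀ l ≤ Nat.find h, f^[l] x = g^[l] x := by
    intro l
    induction l with
    | zero => intro _; rfl
    | succ l ih =>
      intro hl
      have h1 := ih (by omega)
      rw [iterate_succ_apply' f, iterate_succ_apply' g, h1]
      exact hfg _ (Nat.find_min h (by omega))
  exact ⟨Nat.find h, by rw [key _ le_rfl]; exact Nat.find_spec h⟩

theorem tr_iff {α β : Type*} [Finite α] {f : α → α} (hf : Injective f) {ι : β → α}
    (hι : Injective ι) {h : β → β} (H : ∀ i, FR f (Set.range ι) (ι i) (ι (h i)))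
    (Hit : ∀ x, ∃ k : ℕ, f^[k] x ∈ Set.range ι) : Tr f ↔ Tr h := by
  constructor
  · intro hT i j
    obtain ⟨n, hn⟩ := hT (ι i) (ι j)
    induction n using Nat.strong_induction_on generalizing i with
    | _ n ih =>
      rcases Nat.eq_zero_or_pos n with h0 | h0
      · subst h0
        exact ⟨0, hι hn⟩
      · obtain ⟨k, hk, hk'⟩ := H i
        have hnk : k + 1 ≤ n := by
          by_contra hlt
          obtain ⟨l, rfl⟩ : ∃ l, n = l + 1 := ⟨n - 1, by omega⟩
          exact hk' l (by omega) (hn ▸ ⟨j, rfl⟩)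
        obtain ⟨r, rfl⟩ : ∃ r, n = r + (k + 1) := ⟨n - (k + 1), by omega⟩
        rw [iterate_add_apply, hk] at hn
        obtain ⟨c, hc⟩ := ih r (by omega) (h i) hn
        exact ⟨c + 1, by rw [iterate_succ_apply]; exact hc⟩
  · intro hT x y
    -- `ι i → ι j`
    have h1 : ∀ (c : ℕ) (i : β), ∃ k : ℕ, f^[k] (ι i) = ι (h^[c] i) := by
      intro c
      induction c with
      | zero => intro i; exact ⟨0, rfl⟩
      | succ c ih =>
        intro i
        obtain ⟨k, hk, _⟩ := H i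
        obtain ⟨k', hk''⟩ := ih (h i)
        refine ⟨k' + (k + 1), ?_⟩
        rw [iterate_add_apply, hk, hk'', iterate_succ_apply]
    obtain ⟨k, i, hk⟩ := Hit x
    obtain ⟨l, j, hl⟩ := Hit y
    obtain ⟨c, hc⟩ := hT i j
    obtain ⟨k', hk'⟩ := h1 c i
    rw [hc] at hk'
    obtain ⟨p, hp, hper⟩ := mem_periodicPts.1 (hf.mem_periodicPts y)
    -- from `ι j = f^[l] y` to `y`
    have h2 : f^[l * p - l] (ι j) = y := by
      rw [hl, ← iterate_add_apply]
      have : l ≤ l * p := Nat.le_mul_of_pos_right l hp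
      rw [show l * p - l + l = l * p by omega, mul_comm]
      exact (hper.mul_const l)
    refine ⟨(l * p - l) + (k' + k), ?_⟩
    rw [iterate_add_apply, iterate_add_apply, ← hk, hk', h2]

/-! ### Transfer from a sub-configuration -/

noncomputable def L {α β : Type*} (ι : β → α) (σ : α → α) (s' : β → β) : α → α :=
  Function.extend ι (fun i => ι (s' i)) σ

section tfr
variable {α β : Type*} {ι : β → α} {σ : α → α} {s : β → β}

theorem L_apply (hι : Injective ι) (s' : β → β) (i : β) : L ι σ s' (ι i) = ι (s' i) :=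
  hι.extend_apply _ _ _

theorem L_off (s' : β → β) {x : α} (hx : x ∉ Set.range ι) : L ι σ s' x = σ x :=
  Function.extend_apply' _ _ _ (fun ⟨i, hi⟩ => hx ⟨i, hi⟩)

theorem L_self (hι : Injective ι) (hs : ∀ i, σ (ι i) = ι (s i)) : L ι σ s = σ := by
  funext x
  by_cases hx : x ∈ Set.range ι
  · obtain ⟨i, rfl⟩ := hx
    rw [L_apply hι, hs]
  · exact L_off _ hx

theorem L_IsM (hι : Injective ι) (hσ : IsM σ) (hs : ∀ i, σ (ι i) = ι (s i)) {s' : β → β}
    (hs' : IsM s') : IsM (L ι σ s') := by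
  intro x
  by_cases hx : x ∈ Set.range ι
  · obtain ⟨i, rfl⟩ := hx
    rw [L_apply hι, L_apply hι, (hs' i).1]
    exact ⟨rfl, fun h => (hs' i).2 (hι h)⟩
  · have hx2 : σ x ∉ Set.range ι := by
      rintro ⟨i, hi⟩
      exact hx ⟨s i, by rw [← hs i, hi, (hσ x).1]⟩
    rw [L_off _ hx, L_off _ hx2]
    exact hσ x

theorem L_Sw (hι : Injective ι) (hs : ∀ i, σ (ι i) = ι (s i)) {s1 s2 : β → β} (h : Sw s1 s2) :
    Sw (L ι σ s1) (L ι σ s2) := by
  obtain ⟨A, C, h1, h2, h3, h4, h5, h6, h7⟩ := h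
  refine ⟨ι A, ι C, fun h => h1 (hι h), ?_, ?_, ?_, ?_, ?_, ?_⟩
  · rw [L_apply hι]; exact fun h => h2 (hι h)
  · rw [L_apply hι, h3]
  · rw [L_apply hι, h4]
  · rw [L_apply hι, L_apply hι, L_apply hι, h5]
  · rw [L_apply hι, L_apply hι, L_apply hι, h6]
  · intro x hx1 hx2 hx3 hx4
    rw [L_apply hι] at hx3 hx4
    by_cases hx : x ∈ Set.range ι
    · obtain ⟨i, rfl⟩ := hx
      rw [L_apply hι, L_apply hι, h7 i (fun h => hx1 (h ▸ rfl)) (fun h => hx2 (h ▸ rfl))
        (fun h => hx3 (h ▸ rfl)) (fun h => hx4 (h ▸ rfl))]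
    · rw [L_off _ hx, L_off _ hx]

theorem transfer [Finite α] {τ : α → α} (hτ : Injective τ) (hv : Valid τ σ)
    (hι : Injective ι) [Nonempty β] (hs : ∀ i, σ (ι i) = ι (s i)) :
    ∃ T : β → β, (∀ i, FR (τ ∘ σ) (Set.range ι) (ι (s i)) (ι (T i))) ∧
      (∀ s', IsM s' → (Tr (τ ∘ L ι σ s') ↔ Tr (T ∘ s'))) ∧
      (∀ i j, τ (ι i) = ι j → T i = j) ∧
      ∀ k s', Rc T k s s' → Rc τ k σ (L ι σ s') := by
  classical
  have hss : ∀ i, s (s i) = i := fun i => hι (by rw [← hs, ← hs, (hv.1 _).1])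
  have hsM : IsM s := fun i => ⟨hss i, fun h => (hv.1 (ι i)).2 (by rw [hs, h])⟩
  have hex : ∀ i : β, ∃ j : β, FR (τ ∘ σ) (Set.range ι) (ι (s i)) (ι j) := by
    intro i
    obtain ⟨y, ⟨j, rfl⟩, hy⟩ := FR.exists (S := Set.range ι) hv.2 ⟨i, rfl⟩ (ι (s i))
    exact ⟨j, hy⟩
  choose T hT using hex
  have hiff : ∀ s', IsM s' → (Tr (τ ∘ L ι σ s') ↔ Tr (T ∘ s')) := by
    intro s' hs'
    have hoff : ∀ z, z ∉ Set.range ι → (τ ∘ L ι σ s') z = (τ ∘ σ) z := by
      intro z hz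
      simp only [comp_apply]
      rw [L_off _ hz]
    apply tr_iff (hτ.comp (L_IsM hι hv.1 hs hs').inj) hι
    · intro i
      refine FR.congr hoff ?_ (hT (s' i))
      simp only [comp_apply]
      rw [L_apply hι, hs, hss]
    · intro x
      apply hit_congr hoff
      obtain ⟨i⟩ := (inferInstance : Nonempty β)
      obtain ⟨k, hk⟩ := hv.2 x (ι i)
      exact ⟨k, i, hk.symm⟩
  refine ⟨T, hT, hiff, ?_, ?_⟩
  · intro i j hij
    refine hι (FR.uniq (S := Set.range ι) ⟨_, rfl⟩ ⟨_, rfl⟩ (hT i) (FR.one ?_))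
    simp only [comp_apply]
    rw [hs, hss, hij]
  · intro k s' h
    have main : ∀ k (s1 s' : β → β), Rc T k s1 s' → Rc τ k (L ι σ s1) (L ι σ s') := by
      intro k s1 s' h
      induction h with
      | refl k s => exact Rc.refl _ _
      | step h1 h2 _ ih =>
        exact Rc.step (L_Sw hι hs h1) ⟨L_IsM hι hv.1 hs h2.1, (hiff _ h2.1).2 h2.2⟩ ih
    have := main k s s' h
    rwa [L_self hι hs] at this

end tfr

/-! ### Bounded checks on lists -/

def run (tl sl : List ℕ) : ℕ → ℕ → Bool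
  | 0, _ => true
  | k + 1, x => match tl.getD (sl.getD x 0) 0 with
    | 0 => false
    | y + 1 => run tl sl k (y + 1)

def one (m : ℕ) (tl sl : List ℕ) : Bool := run tl sl (m - 1) 0

def nx (m : ℕ) (sl : List ℕ) (A C : ℕ) : List ℕ := (List.range m).map fun i =>
  if i = A then C else if i = C then A else if i = sl.getD A 0 then sl.getD C 0
  else if i = sl.getD C 0 then sl.getD A 0 else sl.getD i 0

def okp (m : ℕ) (tl : List ℕ) (tg : List ℕ → Bool) : List ℕ → List (ℕ × ℕ) → Bool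
  | sl, [] => tg sl
  | sl, (A, C) :: r => decide (A < m) && decide (C < m) && !(decide (A = C)) &&
      !(decide (A = sl.getD C 0)) && one m tl (nx m sl A C) && okp m tl tg (nx m sl A C) r

def enumP (m : ℕ) (P : List ℕ → Bool) : List (Option ℕ) → List ℕ → Bool
  | [], acc => P acc
  | some v :: r, acc => acc.contains v || enumP m P r (acc ++ [v])
  | none :: r, acc => (List.range m).all fun v => acc.contains v || enumP m P r (acc ++ [v])

def Mt : List (Option ℕ) → List ℕ → Prop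
  | [], [] => True
  | some v :: r, a :: l => a = v ∧ Mt r l
  | none :: r, _ :: l => Mt r l
  | _, _ => False

theorem enum_sound (m : ℕ) (P : List ℕ → Bool) :
    ∀ (pat : List (Option ℕ)) (acc : List ℕ), enumP m P pat acc = true → ∀ l : List ℕ,
      Mt pat l → (∀ v ∈ l, v < m) → (acc ++ l).Nodup → P (acc ++ l) = true := by
  intro pat
  induction pat with
  | nil =>
    intro acc h l hl _ _
    match l, hl with
    | [], _ => simpa [enumP] using h
  | cons o r ih =>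
    intro acc h l hl hv hnd
    match o, l, hl with
    | some w, a :: l', hl =>
      obtain ⟨rfl, hl⟩ := hl
      have e : acc ++ (a :: l') = (acc ++ [a]) ++ l' := by simp
      rw [enumP, Bool.or_eq_true] at h
      rw [e] at hnd ⊢
      rcases h with h1 | h1
      · exfalso
        have hm : a ∈ acc := by simpa using h1
        rw [List.append_assoc, List.nodup_append] at hnd
        exact hnd.2.2 a hm a (by simp) rfl
      · exact ih (acc ++ [a]) h1 l' hl (fun w hw => hv w (by simp [hw])) hnd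
    | none, a :: l', hl =>
      have e : acc ++ (a :: l') = (acc ++ [a]) ++ l' := by simp
      rw [enumP, List.all_eq_true] at h
      have h := h a (List.mem_range.2 (hv a (by simp)))
      rw [Bool.or_eq_true] at h
      rw [e] at hnd ⊢
      rcases h with h1 | h1
      · exfalso
        have hm : a ∈ acc := by simpa using h1
        rw [List.append_assoc, List.nodup_append] at hnd
        exact hnd.2.2 a hm a (by simp) rfl
      · exact ih (acc ++ [a]) h1 l' hl (fun w hw => hv w (by simp [hw])) hnd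

def Rel {m : ℕ} (sl : List ℕ) (s : Fin m → Fin m) : Prop := ∀ i : Fin m, sl.getD i 0 = (s i : ℕ)

theorem run_iff {m : ℕ} {tl sl : List ℕ} {T s : Fin m → Fin m} (hT : Rel tl T) (hs : Rel sl s) :
    ∀ (k : ℕ) (x : Fin m), run tl sl k x = true ↔ ∀ j < k, (((T ∘ s)^[j + 1] x : Fin m) : ℕ) ≠ 0 := by
  intro k
  induction k with
  | zero => intro x; simp [run]
  | succ k ih =>
    intro x
    have e : tl.getD (sl.getD x 0) 0 = (((T ∘ s) x : Fin m) : ℕ) := by
      rw [hs x, hT (s x)]; rfl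
    have e2 : run tl sl (k + 1) x = true ↔ (((T ∘ s) x : Fin m) : ℕ) ≠ 0 ∧
        run tl sl k ((((T ∘ s) x : Fin m) : ℕ)) = true := by
      rw [run, e]
      rcases hh : ((((T ∘ s) x : Fin m) : ℕ)) with _ | y
      · simp
      · simp
    rw [e2, ih]
    constructor
    · rintro ⟨h1, h2⟩ j hj
      rcases j with _ | j
      · exact h1
      · rw [iterate_succ_apply]
        exact h2 j (by omega)
    · intro h
      refine ⟨h 0 (by omega), fun j hj => ?_⟩
      have := h (j + 1) (by omega)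
      rwa [iterate_succ_apply] at this

theorem one_iff {m : ℕ} [NeZero m] {tl sl : List ℕ} {T s : Fin m → Fin m} (hT : Rel tl T)
    (hs : Rel sl s) (hinj : Injective (T ∘ s)) : Tr (T ∘ s) ↔ one m tl sl = true := by
  have h0 : ((0 : Fin m) : ℕ) = 0 := rfl
  have hm : 0 < m := Nat.pos_of_ne_zero (NeZero.ne m)
  have hrun := run_iff hT hs (m - 1) 0
  rw [h0] at hrun
  rw [one, hrun]
  constructor
  · intro h j hj he
    refine h.ne (x := (0 : Fin m)) (j := j + 1) (by omega) (by simp; omega) ?_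
    exact Fin.ext he
  · intro h
    set f := T ∘ s with hf
    have hp : 0 < minimalPeriod f 0 := minimalPeriod_pos_of_mem_periodicPts (hinj.mem_periodicPts 0)
    have hper := isPeriodicPt_minimalPeriod f 0
    have hpm : m ≤ minimalPeriod f 0 := by
      by_contra hlt
      apply h (minimalPeriod f 0 - 1) (by omega)
      rw [show minimalPeriod f 0 - 1 + 1 = minimalPeriod f 0 by omega]
      have : f^[minimalPeriod f 0] 0 = 0 := hper
      rw [this]; rfl
    have hin : Injective (fun k : Fin m => f^[(k : ℕ)] 0) := by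
      intro a b hab
      exact Fin.ext (iterate_injOn_Iio_minimalPeriod (lt_of_lt_of_le a.2 hpm)
        (lt_of_lt_of_le b.2 hpm) hab)
    have hsur := Finite.surjective_of_injective hin
    intro x y
    obtain ⟨k, hk⟩ := hsur x
    obtain ⟨l, hl⟩ := hsur y
    simp only at hk hl
    have hk2 : f^[(k : ℕ) * minimalPeriod f 0 - k] x = 0 := by
      rw [← hk, ← iterate_add_apply]
      have : (k : ℕ) ≤ k * minimalPeriod f 0 := Nat.le_mul_of_pos_right _ hp
      rw [show (k : ℕ) * minimalPeriod f 0 - k + k = minimalPeriod f 0 * k by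
        rw [mul_comm (minimalPeriod f 0)]; omega]
      exact hper.mul_const k
    exact ⟨l + (k * minimalPeriod f 0 - k), by rw [iterate_add_apply, hk2, hl]⟩

def swp {m : ℕ} (s : Fin m → Fin m) (A C : Fin m) : Fin m → Fin m := fun i =>
  if i = A then C else if i = C then A else if i = s A then s C else if i = s C then s A else s i

theorem swp_Sw {m : ℕ} {s : Fin m → Fin m} (hs : IsM s) {A C : Fin m} (h1 : A ≠ C)
    (h2 : A ≠ s C) : IsM (swp s A C) ∧ Sw s (swp s A C) := by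
  have hC : C ≠ s A := fun h => h2 (by rw [h, (hs A).1])
  have hAA := (hs A).2
  have hCC := (hs C).2
  have hAC : s A ≠ s C := fun h => h1 (hs.inj h)
  have eA : swp s A C A = C := by simp [swp]
  have eC : swp s A C C = A := by simp [swp, h1.symm]
  have esA : swp s A C (s A) = s C := by simp [swp, hAA, hC.symm]
  have esC : swp s A C (s C) = s A := by simp [swp, hCC, h2.symm, hAC.symm]
  have eo : ∀ x, x ≠ A → x ≠ C → x ≠ s A → x ≠ s C → swp s A C x = s x := by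
    intro x a b c d; simp [swp, a, b, c, d]
  refine ⟨?_, A, C, h1, h2, eA, eC, esA, esC, eo⟩
  intro x
  by_cases a : x = A
  · subst a; rw [eA, eC]; exact ⟨rfl, h1.symm⟩
  by_cases b : x = C
  · subst b; rw [eC, eA]; exact ⟨rfl, h1⟩
  by_cases c : x = s A
  · subst c; rw [esA, esC]; exact ⟨rfl, hAC.symm⟩
  by_cases d : x = s C
  · subst d; rw [esC, esA]; exact ⟨rfl, hAC⟩
  rw [eo x a b c d]
  have a' : s x ≠ A := fun h => c (by rw [← h, (hs x).1])
  have b' : s x ≠ C := fun h => d (by rw [← h, (hs x).1])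
  have c' : s x ≠ s A := fun h => a (hs.inj h)
  have d' : s x ≠ s C := fun h => b (hs.inj h)
  rw [eo _ a' b' c' d']
  exact hs x

theorem nx_rel {m : ℕ} {sl : List ℕ} {s : Fin m → Fin m} (hs : Rel sl s) (A C : Fin m) :
    Rel (nx m sl A C) (swp s A C) := by
  intro i
  have hi : (i : ℕ) < (nx m sl A C).length := by simp [nx]
  rw [List.getD_eq_getElem _ _ hi]
  simp only [nx, List.getElem_map, List.getElem_range, hs A, hs C, hs i]
  unfold swp
  simp only [Fin.ext_iff]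
  split_ifs <;> rfl

theorem okp_sound {m : ℕ} [NeZero m] {tl : List ℕ} {T : Fin m → Fin m} (hT : Rel tl T)
    (hinj : Injective T) (tg : List ℕ → Bool) :
    ∀ (p : List (ℕ × ℕ)) (sl : List ℕ) (s : Fin m → Fin m), Rel sl s → IsM s →
      okp m tl tg sl p = true →
      ∃ sl' s', Rel (m := m) sl' s' ∧ tg sl' = true ∧ Rc T p.length s s' := by
  intro p
  induction p with
  | nil =>
    intro sl s hs hM h
    exact ⟨sl, s, hs, by simpa [okp] using h, Rc.refl _ _⟩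
  | cons q r ih =>
    intro sl s hs hM h
    obtain ⟨A, C⟩ := q
    simp only [okp, Bool.and_eq_true, decide_eq_true_eq, Bool.not_eq_true', decide_eq_false_iff_not]
      at h
    obtain ⟨⟨⟨⟨⟨hA, hC⟩, hAC⟩, hAC'⟩, h1⟩, h2⟩ := h
    have e1 : (⟨A, hA⟩ : Fin m) ≠ ⟨C, hC⟩ := fun h => hAC (by simpa using h)
    have e2 : (⟨A, hA⟩ : Fin m) ≠ s ⟨C, hC⟩ := fun h => hAC' (by
      have := hs ⟨C, hC⟩
      simp only at this
      rw [this, ← h])
    obtain ⟨hM', hSw⟩ := swp_Sw hM e1 e2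
    have hr := nx_rel hs ⟨A, hA⟩ ⟨C, hC⟩
    obtain ⟨sl', s', r1, r2, r3⟩ := ih _ _ hr hM' h2
    refine ⟨sl', s', r1, r2, Rc.step hSw ⟨hM', ?_⟩ r3⟩
    exact (one_iff hT hr (hinj.comp hM'.inj)).2 h1

def chk (m : ℕ) (sl : List ℕ) (paths : List (List (ℕ × ℕ))) (tg excl : List ℕ → Bool)
    (pat : List (Option ℕ)) : Bool :=
  enumP m (fun tl => !(one m tl sl) || excl tl || paths.any (okp m tl tg sl)) pat []

theorem table {m : ℕ} [NeZero m] {s : Fin m → Fin m} {sl : List ℕ} (hs : Rel sl s) (hM : IsM s)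
    {paths : List (List (ℕ × ℕ))} {tg excl : List ℕ → Bool} {pat : List (Option ℕ)} {K : ℕ}
    (hK : ∀ p ∈ paths, p.length ≤ K) (hck : chk m sl paths tg excl pat = true)
    {T : Fin m → Fin m} (hTr : Tr (T ∘ s))
    (hdec : Mt pat (List.ofFn fun i => (T i : ℕ)))
    (hex : excl (List.ofFn fun i => (T i : ℕ)) = false) :
    ∃ sl' s', Rel (m := m) sl' s' ∧ tg sl' = true ∧ Rc T K s s' := by
  have hinj : Injective T := by
    have h1 := hTr.inj
    intro a b hab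
    have : (T ∘ s) (s a) = (T ∘ s) (s b) := by
      simp only [comp_apply]; rw [(hM a).1, (hM b).1, hab]
    exact hM.inj (h1 this)
  set tl := List.ofFn fun i => (T i : ℕ) with htl
  have hT : Rel tl T := by
    intro i
    rw [List.getD_eq_getElem _ _ (by simp [htl])]
    simp [htl]
  have hnd : tl.Nodup := by
    rw [htl, List.nodup_ofFn]
    intro a b hab
    exact hinj (Fin.ext hab)
  have hlt : ∀ v ∈ tl, v < m := by
    intro v hv
    rw [htl, List.mem_ofFn'] at hv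
    obtain ⟨i, hi⟩ := hv
    rw [← hi]
    exact (T i).2
  have h := enum_sound m _ pat [] hck tl hdec hlt (by simpa using hnd)
  rw [List.nil_append] at h
  simp only [Bool.or_eq_true, Bool.not_eq_true', hex, Bool.false_eq_true, or_false] at h
  rcases h with h | h
  · have := (one_iff hT hs hTr.inj).1 hTr
    rw [this] at h; simp at h
  · rw [List.any_eq_true] at h
    obtain ⟨p, hp, h⟩ := h
    obtain ⟨sl', s', r1, r2, r3⟩ := okp_sound hT hinj tg p sl s hs hM h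
    exact ⟨sl', s', r1, r2, r3.mono (hK p hp)⟩

def tg0 (sl : List ℕ) : Bool := sl.getD 0 0 == 2 && sl.getD 1 0 == 3
def tg2 (sl : List ℕ) : Bool := sl.getD 2 0 == 4 && sl.getD 3 0 == 5

def p8A : List (List (ℕ × ℕ)) :=
  [[(0, 2), (1, 3)], [(0, 3), (0, 5), (0, 2)], [(0, 3), (0, 2), (1, 3)],
   [(1, 6), (0, 2), (1, 3)], [(0, 6), (1, 3), (0, 2)], [(0, 2), (1, 6), (1, 3)],
   [(1, 3), (2, 5), (0, 2)], [(0, 7), (0, 2), (1, 3)]]
def p10A : List (List (ℕ × ℕ)) :=
  [[(0, 7), (2, 4), (1, 9)], [(3, 5), (0, 8), (1, 6)], [(2, 4), (0, 3), (0, 9)],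
   [(0, 8), (1, 6), (1, 3), (1, 9)], [(0, 3), (0, 9), (0, 4), (0, 6)],
   [(3, 5), (0, 4), (0, 6)], [(0, 4), (2, 5), (2, 7), (0, 7)]]
def p10P : List (List (ℕ × ℕ)) :=
  [[(2, 4), (3, 5)], [(2, 5), (2, 7), (2, 4)], [(2, 5), (2, 4), (3, 5)],
   [(3, 8), (2, 4), (3, 5)], [(2, 7), (3, 8), (3, 5), (2, 4)], [(3, 5), (4, 7), (2, 4)],
   [(2, 9), (3, 5), (2, 4)], [(0, 3), (1, 5), (2, 4), (0, 1)],
   [(0, 4), (1, 2), (3, 5), (0, 1)], [(0, 9), (2, 4), (1, 7)]]
def p6B : List (List (ℕ × ℕ)) := [[(1, 3)]]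
def p8B : List (List (ℕ × ℕ)) := [[(0, 3), (0, 7)], [(0, 6), (1, 7)]]
def p6C : List (List (ℕ × ℕ)) := [[(0, 2)]]
def p8C : List (List (ℕ × ℕ)) := [[(0, 7), (1, 6)], [(0, 4), (0, 6)]]
def p6D : List (List (ℕ × ℕ)) := [[(0, 2), (1, 3)], [(0, 4), (0, 2)]]
def pLB : List (List (ℕ × ℕ)) := [[(4, 8)], [(0, 9), (2, 5), (2, 4), (0, 2)], [(4, 9)]]

def pat0 (k : ℕ) : List (Option ℕ) := [some 1, some 2, some 3] ++ List.replicate k none
def pat2 (k : ℕ) : List (Option ℕ) :=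
  [none, some 2, some 3, some 4, some 5, some 0] ++ List.replicate k none

theorem chkA8 : chk 8 [4, 5, 6, 7, 0, 1, 2, 3] p8A tg0
    (fun tl => tl.getD 3 0 == 0 || tl == [1, 2, 3, 4, 5, 6, 7, 0]) (pat0 5) = true := by
  decide +kernel

theorem chkA10 : chk 10 [1, 0, 6, 7, 8, 9, 2, 3, 4, 5] p10A tg2 (fun _ => false)
    (pat2 4) = true := by
  decide +kernel

theorem chkP10 : chk 10 [1, 0, 6, 7, 8, 9, 2, 3, 4, 5] p10P tg2
    (fun tl => tl.getD 5 0 == 2 || (tl.getD 5 0 == 0 && tl.getD 0 0 == 2))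
    [none, some 1, some 3, some 4, some 5, none, none, none, none, none] = true := by
  decide +kernel

theorem chkB6 : chk 6 [2, 4, 0, 5, 1, 3] p6B tg0 (fun tl => tl.getD 3 0 == 0) (pat0 3) = true := by
  decide +kernel

theorem chkB8 : chk 8 [1, 0, 4, 6, 2, 7, 3, 5] p8B tg2 (fun _ => false) (pat2 2) = true := by
  decide +kernel

theorem chkC6 : chk 6 [4, 3, 5, 1, 0, 2] p6C tg0 (fun tl => tl.getD 3 0 == 0) (pat0 3) = true := by
  decide +kernel

theorem chkC8 : chk 8 [1, 0, 6, 5, 7, 3, 2, 4] p8C tg2 (fun _ => false) (pat2 2) = true := by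
  decide +kernel

theorem chkD6 : chk 6 [3, 4, 5, 0, 1, 2] p6D tg0 (fun tl => tl.getD 3 0 == 0) (pat0 3) = true := by
  decide +kernel

theorem chkD8 : chk 8 [1, 0, 5, 6, 7, 2, 3, 4] [] tg2 (fun _ => false) (pat2 2) = true := by
  decide +kernel

theorem chkLB : chk 10 [2, 3, 0, 1, 7, 8, 9, 4, 5, 6] pLB
    (fun sl => sl.getD 0 0 == 2 && sl.getD 1 0 == 3 && sl.getD 4 0 != 7) (fun _ => false)
    [some 1, some 2, some 3, some 4, some 5, some 6, none, none, none, none] = true := by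
  decide +kernel

/-! ### Handles and windows -/

def Hd {α : Type*} (τ σ : α → α) (x : α) : Prop :=
  σ x = τ (τ x) ∧ σ (τ x) = τ (τ (τ x))

theorem bubble {α : Type*} {τ σ : α → α} (hτ : Tr τ) (hv : Valid τ σ) {S : Set α}
    (hS : ∀ x ∈ S, σ x ∈ S) {x0 x1 x2 x3 a : α} (h0 : x0 ∈ S)
    (h1 : τ x0 = x1) (h2 : τ x1 = x2) (h3 : τ x2 = x3) (ha : a ∈ S) (ha0 : a ≠ x0) (ha1 : a ≠ x1)
    (ha2 : a ≠ x2) (ha3 : a ≠ x3) (hF : FR (τ ∘ σ) S (σ x3) x0) :
    ∃ e, e ∉ S ∧ σ e ∉ S ∧ FR (τ ∘ σ) (insert e (insert (σ e) S)) (σ x3) e ∧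
      FR (τ ∘ σ) (insert e (insert (σ e) S)) e x0 := by
  classical
  obtain ⟨k, hk, hk'⟩ := hF
  set φ := τ ∘ σ with hφ
  set d := σ x3 with hd
  have hex : ∃ l, l < k ∧ ∀ l' < k, φ^[l' + 1] d ≠ σ (φ^[l + 1] d) := by
    by_contra hcon
    push Not at hcon
    have hU : ∀ j : ℕ, (τ^[j] x0 = x0 ∨ τ^[j] x0 = x1 ∨ τ^[j] x0 = x2 ∨ τ^[j] x0 = x3) ∨
        ∃ l < k, φ^[l + 1] d = τ^[j] x0 := by
      intro j
      induction j with
      | zero => left; left; rfl
      | succ j ih =>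
        rw [iterate_succ_apply']
        rcases ih with (ih | ih | ih | ih) | ⟨l, hl, ih⟩
        · rw [ih, h1]; simp
        · rw [ih, h2]; simp
        · rw [ih, h3]; simp
        · rw [ih]
          have e1 : φ d = τ x3 := by simp only [hφ, hd, comp_apply]; rw [(hv.1 x3).1]
          rcases Nat.eq_zero_or_pos k with hk0 | hk0
          · subst hk0
            left; left
            rw [← e1]; exact hk
          · right
            exact ⟨0, hk0, by simpa using e1⟩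
        · rw [← ih]
          obtain ⟨l', hl', h'⟩ := hcon l hl
          have e1 : τ (φ^[l + 1] d) = φ^[l' + 1 + 1] d := by
            rw [iterate_succ_apply' φ (l' + 1), h']
            simp only [hφ, comp_apply]
            rw [(hv.1 _).1]
          rw [e1]
          rcases Nat.lt_or_ge (l' + 1) k with h | h
          · right; exact ⟨l' + 1, h, rfl⟩
          · left; left
            rw [show l' + 1 = k by omega]; exact hk
    obtain ⟨j, hj⟩ := hτ x0 a
    have := hU j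
    rw [hj] at this
    rcases this with (h | h | h | h) | ⟨l, hl, h⟩
    · exact ha0 h
    · exact ha1 h
    · exact ha2 h
    · exact ha3 h
    · exact hk' l hl (h ▸ ha)
  obtain ⟨hlk, hle⟩ := Nat.find_spec hex
  set l := Nat.find hex with hl
  have hmin : ∀ l' < l, ∃ l'' < k, φ^[l'' + 1] d = σ (φ^[l' + 1] d) := by
    intro l' hl'
    have := Nat.find_min hex hl'
    push Not at this
    exact this (by omega)
  set e := φ^[l + 1] d with he
  have heS : e ∉ S := hk' l hlk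
  have hseS : σ e ∉ S := fun h => heS (by have := hS _ h; rwa [(hv.1 e).1] at this)
  refine ⟨e, heS, hseS, ⟨l, rfl, ?_⟩, ⟨k - l - 1, ?_, ?_⟩⟩
  · intro l' hl' hmem
    rcases hmem with h | h | h
    · obtain ⟨l'', hl'', h''⟩ := hmin l' hl'
      rw [h] at h''
      exact hle l'' hl'' h''
    · exact hle l' (by omega) h
    · exact hk' l' (by omega) h
  · rw [he, ← iterate_add_apply, show k - l - 1 + 1 + (l + 1) = k + 1 by omega]
    exact hk
  · intro l' hl' hmem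
    have e1 : φ^[l' + 1] e = φ^[(l' + 1 + l) + 1] d := by
      rw [he, ← iterate_add_apply]; rfl
    rcases hmem with h | h | h
    · have e2 : φ^[k - l - (l' + 1)] e = x0 := by
        rw [← hk, show k + 1 = (k - l - (l' + 1)) + ((l' + 1) + (l + 1)) by omega,
          iterate_add_apply, iterate_add_apply, ← he, h]
      rw [he, ← iterate_add_apply,
        show k - l - (l' + 1) + (l + 1) = (k - (l' + 1)) + 1 by omega] at e2
      exact hk' (k - (l' + 1)) (by omega) (e2 ▸ h0)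
    · rw [e1] at h
      exact hle _ (by omega) h
    · rw [e1] at h
      exact hk' _ (by omega) h

def ext {m : ℕ} (s : Fin m → Fin m) : Fin (m + 2) → Fin (m + 2) :=
  Matrix.vecCons 1 (Matrix.vecCons 0 fun j => (s j).succ.succ)

theorem window {α : Type*} [Finite α] {τ σ : α → α} (hτ : Tr τ) (hv : Valid τ σ) {m : ℕ}
    {ι : Fin m → α} (hι : Injective ι) {s : Fin m → Fin m}
    (hs : ∀ i, σ (ι i) = ι (s i)) (i0 i1 i2 i3 i4 : Fin m) (h1 : τ (ι i0) = ι i1)
    (h2 : τ (ι i1) = ι i2) (h3 : τ (ι i2) = ι i3)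
    (h4 : i4 ≠ i0 ∧ i4 ≠ i1 ∧ i4 ≠ i2 ∧ i4 ≠ i3) (Fz : (Fin m → Fin m) → Prop)
    (tab : ∀ T : Fin m → Fin m, Tr (T ∘ s) → T i0 = i1 → T i1 = i2 → T i2 = i3 → T i3 ≠ i0 →
      ¬ Fz T → ∃ s', Rc T 4 s s' ∧ s' i0 = i2 ∧ s' i1 = i3)
    (tab' : ∀ T : Fin (m + 2) → Fin (m + 2), Tr (T ∘ ext s) → T 1 = i0.succ.succ →
      T i0.succ.succ = i1.succ.succ → T i1.succ.succ = i2.succ.succ →
      T i2.succ.succ = i3.succ.succ → T i3.succ.succ = 0 →
      ∃ s', Rc T 4 (ext s) s' ∧ s' i0.succ.succ = i2.succ.succ ∧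
        s' i1.succ.succ = i3.succ.succ) :
    (∃ σ', Rc τ 4 σ σ' ∧ Hd τ σ' (ι i0)) ∨
      ∃ T, Fz T ∧ ∀ i, FR (τ ∘ σ) (Set.range ι) (ι (s i)) (ι (T i)) := by
  classical
  have : Nonempty (Fin m) := ⟨i0⟩
  obtain ⟨T, hT, hTr, hTl, hRc⟩ := transfer hτ.inj hv hι hs
  have hss : ∀ i, s (s i) = i := fun i => hι (by rw [← hs, ← hs, (hv.1 _).1])
  have hsM : IsM s := fun i => ⟨hss i, fun h => (hv.1 (ι i)).2 (by rw [hs, h])⟩
  have hTs : Tr (T ∘ s) := by
    have := (hTr s hsM).1 (by rw [L_self hι hs]; exact hv.2)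
    exact this
  by_cases hFz : Fz T
  · exact Or.inr ⟨T, hFz, hT⟩
  left
  by_cases hT3 : T i3 = i0
  · -- the bubble case
    have hF : FR (τ ∘ σ) (Set.range ι) (σ (ι i3)) (ι i0) := by
      have := hT i3
      rwa [hT3, ← hs] at this
    obtain ⟨e, he, hse, hF1, hF2⟩ := bubble (S := Set.range ι) (a := ι i4) hτ hv
      (by rintro x ⟨i, rfl⟩; exact ⟨s i, (hs i).symm⟩) ⟨i0, rfl⟩ h1 h2 h3 ⟨i4, rfl⟩
      (fun h => h4.1 (hι h)) (fun h => h4.2.1 (hι h)) (fun h => h4.2.2.1 (hι h))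
      (fun h => h4.2.2.2 (hι h)) hF
    set ι' : Fin (m + 2) → α := Matrix.vecCons e (Matrix.vecCons (σ e) ι) with hι'
    have hι'inj : Injective ι' := by
      rw [hι']
      unfold Matrix.vecCons
      rw [Fin.cons_injective_iff, Fin.cons_injective_iff]
      refine ⟨?_, hse, hι⟩
      rintro ⟨i, hi⟩
      refine Fin.cases ?_ (fun j => ?_) i hi
      · intro h
        simp only [Fin.cons_zero] at h
        exact (hv.1 e).2 h
      · intro h
        simp only [Fin.cons_succ] at h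
        exact he ⟨j, h⟩
    have e0 : ι' 0 = e := rfl
    have e1 : ι' 1 = σ e := rfl
    have ej : ∀ j : Fin m, ι' j.succ.succ = ι j := fun j => rfl
    have s0 : ext s 0 = 1 := rfl
    have s1 : ext s 1 = 0 := rfl
    have sj : ∀ j : Fin m, ext s j.succ.succ = (s j).succ.succ := fun j => rfl
    have hcase : ∀ P : Fin (m + 2) → Prop, P 0 → P 1 → (∀ j : Fin m, P j.succ.succ) → ∀ i, P i := by
      intro P p0 p1 pj i
      refine Fin.cases p0 (fun j => ?_) i
      exact Fin.cases p1 (fun k => pj k) j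
    have hs' : ∀ i, σ (ι' i) = ι' (ext s i) := by
      apply hcase
      · rw [e0, s0, e1]
      · rw [e1, s1, e0, (hv.1 e).1]
      · intro j
        rw [ej, sj, ej, hs]
    have hrange : Set.range ι' = insert e (insert (σ e) (Set.range ι)) := by
      ext x
      constructor
      · rintro ⟨i, rfl⟩
        revert i
        apply hcase
        · left; rfl
        · right; left; rfl
        · intro j; right; right; exact ⟨j, rfl⟩
      · rintro (h | h | ⟨j, h⟩)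
        · exact ⟨0, h.symm⟩
        · exact ⟨1, h.symm⟩
        · exact ⟨j.succ.succ, h⟩
    obtain ⟨T', hT', hTr', hTl', hRc'⟩ := transfer hτ.inj hv hι'inj hs'
    have hss' : ∀ i, ext s (ext s i) = i := fun i => hι'inj (by rw [← hs', ← hs', (hv.1 _).1])
    have hsM' : IsM (ext s) := fun i => ⟨hss' i, fun h => (hv.1 (ι' i)).2 (by rw [hs', h])⟩
    have hTs' : Tr (T' ∘ ext s) := (hTr' _ hsM').1 (by rw [L_self hι'inj hs']; exact hv.2)
    rw [hrange] at hT'
    have t1 : T' 1 = i0.succ.succ := by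
      refine hι'inj (FR.uniq (S := insert e (insert (σ e) (Set.range ι)))
        (by rw [← hrange]; exact ⟨_, rfl⟩) (by rw [← hrange]; exact ⟨_, rfl⟩) (hT' 1) ?_)
      rw [s1, e0, ej]
      exact hF2
    have t5 : T' i3.succ.succ = 0 := by
      refine hι'inj (FR.uniq (S := insert e (insert (σ e) (Set.range ι)))
        (by rw [← hrange]; exact ⟨_, rfl⟩) (by rw [← hrange]; exact ⟨_, rfl⟩) (hT' i3.succ.succ) ?_)
      rw [sj, ej, e0, ← hs]
      exact hF1
    obtain ⟨s', r1, r2, r3⟩ := tab' T' hTs' t1 (hTl' _ _ (by rw [ej, ej, h1]))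
      (hTl' _ _ (by rw [ej, ej, h2])) (hTl' _ _ (by rw [ej, ej, h3])) t5
    refine ⟨L ι' σ s', hRc' _ _ r1, ?_, ?_⟩
    · rw [← ej i0, L_apply hι'inj, r2, ej, ej, h1, h2]
    · rw [h1, h2, h3, ← ej i1, L_apply hι'inj, r3, ej]
  · obtain ⟨s', r1, r2, r3⟩ := tab T hTs (hTl _ _ h1) (hTl _ _ h2) (hTl _ _ h3) hT3 hFz
    refine ⟨L ι σ s', hRc _ _ r1, ?_, ?_⟩
    · rw [L_apply hι, r2, h1, h2]
    · rw [h1, h2, h3, L_apply hι, r3]

/-! ### The tables as statements about functions -/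

theorem ofFn6 (T : Fin 6 → Fin 6) : (List.ofFn fun i => (T i : ℕ)) =
    [(T 0 : ℕ), (T 1 : ℕ), (T 2 : ℕ), (T 3 : ℕ), (T 4 : ℕ), (T 5 : ℕ)] := rfl

theorem ofFn8 (T : Fin 8 → Fin 8) : (List.ofFn fun i => (T i : ℕ)) =
    [(T 0 : ℕ), (T 1 : ℕ), (T 2 : ℕ), (T 3 : ℕ), (T 4 : ℕ), (T 5 : ℕ), (T 6 : ℕ), (T 7 : ℕ)] := rfl

theorem ofFn10 (T : Fin 10 → Fin 10) : (List.ofFn fun i => (T i : ℕ)) =
    [(T 0 : ℕ), (T 1 : ℕ), (T 2 : ℕ), (T 3 : ℕ), (T 4 : ℕ), (T 5 : ℕ), (T 6 : ℕ), (T 7 : ℕ),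
      (T 8 : ℕ), (T 9 : ℕ)] := rfl

theorem tg0_sound {m : ℕ} {sl : List ℕ} {s' : Fin (m + 4) → Fin (m + 4)} (hr : Rel sl s')
    (h : tg0 sl = true) : s' 0 = 2 ∧ s' 1 = 3 := by
  simp only [tg0, Bool.and_eq_true, beq_iff_eq] at h
  have h0 := hr 0
  have h1 := hr 1
  constructor
  · apply Fin.ext
    rw [← h0]; exact h.1
  · apply Fin.ext
    rw [← h1]; exact h.2

theorem tg2_sound {m : ℕ} {sl : List ℕ} {s' : Fin (m + 6) → Fin (m + 6)} (hr : Rel sl s')
    (h : tg2 sl = true) : s' 2 = 4 ∧ s' 3 = 5 := by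
  simp only [tg2, Bool.and_eq_true, beq_iff_eq] at h
  have h0 := hr 2
  have h1 := hr 3
  constructor
  · apply Fin.ext
    rw [← h0]; exact h.1
  · apply Fin.ext
    rw [← h1]; exact h.2

theorem tabA (T : Fin 8 → Fin 8) (hTr : Tr (T ∘ ![4, 5, 6, 7, 0, 1, 2, 3])) (h0 : T 0 = 1)
    (h1 : T 1 = 2) (h2 : T 2 = 3) (h3 : T 3 ≠ 0) (hF : ¬ ∀ i, T i = i + 1) :
    ∃ s', Rc T 4 ![4, 5, 6, 7, 0, 1, 2, 3] s' ∧ s' 0 = 2 ∧ s' 1 = 3 := by
  obtain ⟨sl', s', r1, r2, r3⟩ := table (K := 4) (s := ![4, 5, 6, 7, 0, 1, 2, 3])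
    (by unfold Rel; decide) (by unfold IsM; decide) (by decide) chkA8 hTr
    (by rw [ofFn8]; simp [pat0, Mt, h0, h1, h2])
    (by
      rw [ofFn8]
      simp only [Bool.or_eq_false_iff, beq_eq_false_iff_ne]
      refine ⟨fun h => h3 (Fin.ext h), fun h => hF ?_⟩
      simp only [List.cons.injEq] at h
      intro i
      apply Fin.ext
      fin_cases i
      · exact h.1
      · exact h.2.1
      · exact h.2.2.1
      · exact h.2.2.2.1
      · exact h.2.2.2.2.1
      · exact h.2.2.2.2.2.1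
      · exact h.2.2.2.2.2.2.1
      · exact h.2.2.2.2.2.2.2.1)
  exact ⟨s', r3, tg0_sound (m := 4) r1 r2⟩

theorem tabA' (T : Fin 10 → Fin 10) (hTr : Tr (T ∘ ![1, 0, 6, 7, 8, 9, 2, 3, 4, 5]))
    (h1 : T 1 = 2) (h2 : T 2 = 3) (h3 : T 3 = 4) (h4 : T 4 = 5) (h5 : T 5 = 0) :
    ∃ s', Rc T 4 ![1, 0, 6, 7, 8, 9, 2, 3, 4, 5] s' ∧ s' 2 = 4 ∧ s' 3 = 5 := by
  obtain ⟨sl', s', r1, r2, r3⟩ := table (K := 4) (s := ![1, 0, 6, 7, 8, 9, 2, 3, 4, 5])
    (by unfold Rel; decide) (by unfold IsM; decide) (by decide) chkA10 hTr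
    (by rw [ofFn10]; simp [pat2, Mt, h1, h2, h3, h4, h5]) rfl
  exact ⟨s', r3, tg2_sound (m := 4) r1 r2⟩

theorem tabP (T : Fin 10 → Fin 10) (hTr : Tr (T ∘ ![1, 0, 6, 7, 8, 9, 2, 3, 4, 5]))
    (h1 : T 1 = 1) (h2 : T 2 = 3) (h3 : T 3 = 4) (h4 : T 4 = 5) (h5 : T 5 ≠ 2)
    (h6 : ¬ (T 5 = 0 ∧ T 0 = 2)) :
    ∃ s', Rc T 4 ![1, 0, 6, 7, 8, 9, 2, 3, 4, 5] s' ∧ s' 2 = 4 ∧ s' 3 = 5 := by
  obtain ⟨sl', s', r1, r2, r3⟩ := table (K := 4) (s := ![1, 0, 6, 7, 8, 9, 2, 3, 4, 5])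
    (by unfold Rel; decide) (by unfold IsM; decide) (by decide) chkP10 hTr
    (by rw [ofFn10]; simp [Mt, h1, h2, h3, h4])
    (by
      rw [ofFn10]
      simp only [Bool.or_eq_false_iff, beq_eq_false_iff_ne, Bool.and_eq_false_iff]
      refine ⟨fun h => h5 (Fin.ext h), ?_⟩
      by_contra hcon
      push Not at hcon
      exact h6 ⟨Fin.ext hcon.1, Fin.ext hcon.2⟩)
  exact ⟨s', r3, tg2_sound (m := 4) r1 r2⟩

theorem tabB (T : Fin 6 → Fin 6) (hTr : Tr (T ∘ ![2, 4, 0, 5, 1, 3])) (h0 : T 0 = 1)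
    (h1 : T 1 = 2) (h2 : T 2 = 3) (h3 : T 3 ≠ 0) :
    ∃ s', Rc T 4 ![2, 4, 0, 5, 1, 3] s' ∧ s' 0 = 2 ∧ s' 1 = 3 := by
  obtain ⟨sl', s', r1, r2, r3⟩ := table (K := 4) (s := ![2, 4, 0, 5, 1, 3])
    (by unfold Rel; decide) (by unfold IsM; decide) (by decide) chkB6 hTr
    (by rw [ofFn6]; simp [pat0, Mt, h0, h1, h2])
    (by rw [ofFn6]; rw [beq_eq_false_iff_ne]; exact fun h => h3 (Fin.ext h))
  exact ⟨s', r3, tg0_sound (m := 2) r1 r2⟩

theorem tabB' (T : Fin 8 → Fin 8) (hTr : Tr (T ∘ ![1, 0, 4, 6, 2, 7, 3, 5]))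
    (h1 : T 1 = 2) (h2 : T 2 = 3) (h3 : T 3 = 4) (h4 : T 4 = 5) (h5 : T 5 = 0) :
    ∃ s', Rc T 4 ![1, 0, 4, 6, 2, 7, 3, 5] s' ∧ s' 2 = 4 ∧ s' 3 = 5 := by
  obtain ⟨sl', s', r1, r2, r3⟩ := table (K := 4) (s := ![1, 0, 4, 6, 2, 7, 3, 5])
    (by unfold Rel; decide) (by unfold IsM; decide) (by decide) chkB8 hTr
    (by rw [ofFn8]; simp [pat2, Mt, h1, h2, h3, h4, h5]) rfl
  exact ⟨s', r3, tg2_sound (m := 2) r1 r2⟩

theorem tabC (T : Fin 6 → Fin 6) (hTr : Tr (T ∘ ![4, 3, 5, 1, 0, 2])) (h0 : T 0 = 1)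
    (h1 : T 1 = 2) (h2 : T 2 = 3) (h3 : T 3 ≠ 0) :
    ∃ s', Rc T 4 ![4, 3, 5, 1, 0, 2] s' ∧ s' 0 = 2 ∧ s' 1 = 3 := by
  obtain ⟨sl', s', r1, r2, r3⟩ := table (K := 4) (s := ![4, 3, 5, 1, 0, 2])
    (by unfold Rel; decide) (by unfold IsM; decide) (by decide) chkC6 hTr
    (by rw [ofFn6]; simp [pat0, Mt, h0, h1, h2])
    (by rw [ofFn6]; rw [beq_eq_false_iff_ne]; exact fun h => h3 (Fin.ext h))
  exact ⟨s', r3, tg0_sound (m := 2) r1 r2⟩

theorem tabC' (T : Fin 8 → Fin 8) (hTr : Tr (T ∘ ![1, 0, 6, 5, 7, 3, 2, 4]))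
    (h1 : T 1 = 2) (h2 : T 2 = 3) (h3 : T 3 = 4) (h4 : T 4 = 5) (h5 : T 5 = 0) :
    ∃ s', Rc T 4 ![1, 0, 6, 5, 7, 3, 2, 4] s' ∧ s' 2 = 4 ∧ s' 3 = 5 := by
  obtain ⟨sl', s', r1, r2, r3⟩ := table (K := 4) (s := ![1, 0, 6, 5, 7, 3, 2, 4])
    (by unfold Rel; decide) (by unfold IsM; decide) (by decide) chkC8 hTr
    (by rw [ofFn8]; simp [pat2, Mt, h1, h2, h3, h4, h5]) rfl
  exact ⟨s', r3, tg2_sound (m := 2) r1 r2⟩

theorem tabD (T : Fin 6 → Fin 6) (hTr : Tr (T ∘ ![3, 4, 5, 0, 1, 2])) (h0 : T 0 = 1)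
    (h1 : T 1 = 2) (h2 : T 2 = 3) (h3 : T 3 ≠ 0) :
    ∃ s', Rc T 4 ![3, 4, 5, 0, 1, 2] s' ∧ s' 0 = 2 ∧ s' 1 = 3 := by
  obtain ⟨sl', s', r1, r2, r3⟩ := table (K := 4) (s := ![3, 4, 5, 0, 1, 2])
    (by unfold Rel; decide) (by unfold IsM; decide) (by decide) chkD6 hTr
    (by rw [ofFn6]; simp [pat0, Mt, h0, h1, h2])
    (by rw [ofFn6]; rw [beq_eq_false_iff_ne]; exact fun h => h3 (Fin.ext h))
  exact ⟨s', r3, tg0_sound (m := 2) r1 r2⟩

theorem tabD' (T : Fin 8 → Fin 8) (hTr : Tr (T ∘ ![1, 0, 5, 6, 7, 2, 3, 4]))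
    (h1 : T 1 = 2) (h2 : T 2 = 3) (h3 : T 3 = 4) (h4 : T 4 = 5) (h5 : T 5 = 0) :
    ∃ s', Rc T 4 ![1, 0, 5, 6, 7, 2, 3, 4] s' ∧ s' 2 = 4 ∧ s' 3 = 5 := by
  obtain ⟨sl', s', r1, r2, r3⟩ := table (K := 4) (s := ![1, 0, 5, 6, 7, 2, 3, 4])
    (by unfold Rel; decide) (by unfold IsM; decide) (by decide) chkD8 hTr
    (by rw [ofFn8]; simp [pat2, Mt, h1, h2, h3, h4, h5]) rfl
  exact ⟨s', r3, tg2_sound (m := 2) r1 r2⟩

theorem tabLB (T : Fin 10 → Fin 10) (hTr : Tr (T ∘ ![2, 3, 0, 1, 7, 8, 9, 4, 5, 6]))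
    (h0 : T 0 = 1) (h1 : T 1 = 2) (h2 : T 2 = 3) (h3 : T 3 = 4) (h4 : T 4 = 5) (h5 : T 5 = 6) :
    ∃ s', Rc T 4 ![2, 3, 0, 1, 7, 8, 9, 4, 5, 6] s' ∧ s' 0 = 2 ∧ s' 1 = 3 ∧ s' 4 ≠ 7 := by
  obtain ⟨sl', s', r1, r2, r3⟩ := table (K := 4) (s := ![2, 3, 0, 1, 7, 8, 9, 4, 5, 6])
    (by unfold Rel; decide) (by unfold IsM; decide) (by decide) chkLB hTr
    (by rw [ofFn10]; simp [Mt, h0, h1, h2, h3, h4, h5]) rfl
  simp only [Bool.and_eq_true, beq_iff_eq, bne_iff_ne] at r2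
  refine ⟨s', r3, ?_, ?_, ?_⟩
  · apply Fin.ext
    rw [← r1 0]; exact r2.1.1
  · apply Fin.ext
    rw [← r1 1]; exact r2.1.2
  · intro h
    have := r1 4
    rw [h] at this
    exact r2.2 this

/-! ### The front of a valid matching -/

def v8 {α : Type*} (τ σ : α → α) (x : α) : Fin 8 → α :=
  ![x, τ x, τ (τ x), τ (τ (τ x)), σ x, σ (τ x), σ (τ (τ x)), σ (τ (τ (τ x)))]

def Frozen {α : Type*} (τ σ : α → α) (x : α) : Prop :=
  Injective (v8 τ σ x) ∧
    ∀ i, FR (τ ∘ σ) (Set.range (v8 τ σ x)) (v8 τ σ x i) (v8 τ σ x (i + 5))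

theorem inj6 {α : Type*} {a0 a1 a2 a3 a4 a5 : α}
    (h : [a0, a1, a2, a3, a4, a5].Nodup) : Injective ![a0, a1, a2, a3, a4, a5] := by
  rw [← List.nodup_ofFn]; simpa using h

theorem inj8 {α : Type*} {a0 a1 a2 a3 a4 a5 a6 a7 : α}
    (h : [a0, a1, a2, a3, a4, a5, a6, a7].Nodup) :
    Injective ![a0, a1, a2, a3, a4, a5, a6, a7] := by
  rw [← List.nodup_ofFn]; simpa using h

theorem inj10 {α : Type*} {a0 a1 a2 a3 a4 a5 a6 a7 a8 a9 : α}
    (h : [a0, a1, a2, a3, a4, a5, a6, a7, a8, a9].Nodup) :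
    Injective ![a0, a1, a2, a3, a4, a5, a6, a7, a8, a9] := by
  rw [← List.nodup_ofFn]; simpa using h

theorem front {α : Type*} [Fintype α] {τ σ : α → α} (hτ : Tr τ) (hv : Valid τ σ)
    (hc : 4 < Fintype.card α) (x : α) :
    (∃ σ', Rc τ 4 σ σ' ∧ Hd τ σ' x) ∨ Frozen τ σ x := by
  classical
  have hσ := hv.1
  have n1 : ∀ y, y ≠ τ y := fun y => (hτ.ne (x := y) (j := 1) (by omega) (by omega)).symm
  have n2 : ∀ y, y ≠ τ (τ y) := fun y => (hτ.ne (x := y) (j := 2) (by omega) (by omega)).symm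
  have n3 : ∀ y, y ≠ τ (τ (τ y)) := fun y =>
    (hτ.ne (x := y) (j := 3) (by omega) (by omega)).symm
  have nc : ∀ y, σ y ≠ τ y := by
    intro y hy
    refine hv.2.ne (x := τ y) (j := 1) (by omega) (by omega) ?_
    show τ (σ (τ y)) = τ y
    rw [← hy, (hσ y).1, hy]
  have nc' : ∀ y, σ (τ y) ≠ y := by
    intro y hy
    apply nc y
    rw [← hy, (hσ _).1, hy]
  have sinj := hσ.inj
  have sflip : ∀ y z, σ y = z → σ z = y := fun y z h => by rw [← h, (hσ y).1]
  obtain ⟨x1, h1⟩ : ∃ x1, τ x = x1 := ⟨_, rfl⟩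
  obtain ⟨x2, h2⟩ : ∃ x2, τ x1 = x2 := ⟨_, rfl⟩
  obtain ⟨x3, h3⟩ : ∃ x3, τ x2 = x3 := ⟨_, rfl⟩
  have d01 : x ≠ x1 := by rw [← h1]; exact n1 x
  have d12 : x1 ≠ x2 := by rw [← h2]; exact n1 x1
  have d23 : x2 ≠ x3 := by rw [← h3]; exact n1 x2
  have d02 : x ≠ x2 := by rw [← h2, ← h1]; exact n2 x
  have d13 : x1 ≠ x3 := by rw [← h3, ← h2]; exact n2 x1
  have d03 : x ≠ x3 := by rw [← h3, ← h2, ← h1]; exact n3 x
  have c01 : σ x ≠ x1 := by rw [← h1]; exact nc x
  have c12 : σ x1 ≠ x2 := by rw [← h2]; exact nc x1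
  have c23 : σ x2 ≠ x3 := by rw [← h3]; exact nc x2
  have c10 : σ x1 ≠ x := by rw [← h1]; exact nc' x
  have c21 : σ x2 ≠ x1 := by rw [← h2]; exact nc' x1
  have c32 : σ x3 ≠ x2 := by rw [← h3]; exact nc' x2
  have i0 := (hσ x).2
  have i1 := (hσ x1).2
  have i2 := (hσ x2).2
  have i3 := (hσ x3).2
  by_cases hA : σ x = x2
  · by_cases hB : σ x1 = x3
    · left
      exact ⟨σ, Rc.refl _ _, by rw [h1, h2]; exact hA, by rw [h1, h2, h3]; exact hB⟩
    · -- type B
      left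
      have hA' := sflip _ _ hA
      have q1 : σ x3 ≠ x := fun h => d23 (by rw [← hA, sflip _ _ h])
      have q2 : σ x3 ≠ x1 := fun h => hB (sflip _ _ h)
      have hnd : [x, x1, x2, x3, σ x1, σ x3].Nodup := by
        simp only [List.nodup_cons, List.mem_cons, not_or, List.not_mem_nil, not_false_eq_true,
          List.nodup_nil, and_true]
        exact ⟨⟨d01, d02, d03, c10.symm, q1.symm⟩, ⟨d12, d13, i1.symm, q2.symm⟩,
          ⟨d23, c12.symm, c32.symm⟩, ⟨fun h => hB h.symm, i3.symm⟩, fun h => d13 (sinj h)⟩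
      rcases window hτ hv (inj6 hnd) (s := ![2, 4, 0, 5, 1, 3])
        (by
          intro i
          fin_cases i
          · exact hA
          · rfl
          · exact hA'
          · rfl
          · exact (hσ x1).1
          · exact (hσ x3).1) 0 1 2 3 4 h1 h2 h3 (by decide) (fun _ => False)
        (fun T t t0 t1 t2 t3 _ => tabB T t t0 t1 t2 t3)
        (by
          rw [show ext ![2, 4, 0, 5, 1, 3] = ![1, 0, 4, 6, 2, 7, 3, 5] by
            funext i; revert i; decide]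
          exact fun T t t0 t1 t2 t3 t4 => tabB' T t t0 t1 t2 t3 t4) with h | ⟨T, hF, _⟩
      · exact h
      · exact hF.elim
  by_cases hB : σ x1 = x3
  · -- type C
    left
    have hB' := sflip _ _ hB
    have q1 : σ x2 ≠ x := fun h => hA (sflip _ _ h)
    have q2 : σ x ≠ x3 := fun h => d01 (sinj (by rw [h, hB]))
    have hnd : [x, x1, x2, x3, σ x, σ x2].Nodup := by
      simp only [List.nodup_cons, List.mem_cons, not_or, List.not_mem_nil, not_false_eq_true,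
        List.nodup_nil, and_true]
      exact ⟨⟨d01, d02, d03, i0.symm, q1.symm⟩, ⟨d12, d13, c01.symm, c21.symm⟩,
        ⟨d23, fun h => hA h.symm, i2.symm⟩, ⟨q2.symm, c23.symm⟩, fun h => d02 (sinj h)⟩
    rcases window hτ hv (inj6 hnd) (s := ![4, 3, 5, 1, 0, 2])
      (by
        intro i
        fin_cases i
        · rfl
        · exact hB
        · rfl
        · exact hB'
        · exact (hσ x).1
        · exact (hσ x2).1) 0 1 2 3 4 h1 h2 h3 (by decide) (fun _ => False)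
      (fun T t t0 t1 t2 t3 _ => tabC T t t0 t1 t2 t3)
      (by
        rw [show ext ![4, 3, 5, 1, 0, 2] = ![1, 0, 6, 5, 7, 3, 2, 4] by
          funext i; revert i; decide]
        exact fun T t t0 t1 t2 t3 t4 => tabC' T t t0 t1 t2 t3 t4) with h | ⟨T, hF, _⟩
    · exact h
    · exact hF.elim
  by_cases hD : σ x = x3
  · -- type D
    left
    have hD' := sflip _ _ hD
    have q1 : σ x2 ≠ x := fun h => hA (sflip _ _ h)
    have hnd : [x, x1, x2, x3, σ x1, σ x2].Nodup := by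
      simp only [List.nodup_cons, List.mem_cons, not_or, List.not_mem_nil, not_false_eq_true,
        List.nodup_nil, and_true]
      exact ⟨⟨d01, d02, d03, c10.symm, q1.symm⟩, ⟨d12, d13, i1.symm, c21.symm⟩,
        ⟨d23, c12.symm, i2.symm⟩, ⟨fun h => hB h.symm, c23.symm⟩, fun h => d12 (sinj h)⟩
    rcases window hτ hv (inj6 hnd) (s := ![3, 4, 5, 0, 1, 2])
      (by
        intro i
        fin_cases i
        · exact hD
        · rfl
        · rfl
        · exact hD'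
        · exact (hσ x1).1
        · exact (hσ x2).1) 0 1 2 3 4 h1 h2 h3 (by decide) (fun _ => False)
      (fun T t t0 t1 t2 t3 _ => tabD T t t0 t1 t2 t3)
      (by
        rw [show ext ![3, 4, 5, 0, 1, 2] = ![1, 0, 5, 6, 7, 2, 3, 4] by
          funext i; revert i; decide]
        exact fun T t t0 t1 t2 t3 t4 => tabD' T t t0 t1 t2 t3 t4) with h | ⟨T, hF, _⟩
    · exact h
    · exact hF.elim
  -- type A
  have q1 : σ x2 ≠ x := fun h => hA (sflip _ _ h)
  have q2 : σ x3 ≠ x := fun h => hD (sflip _ _ h)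
  have q3 : σ x3 ≠ x1 := fun h => hB (sflip _ _ h)
  have hnd : [x, x1, x2, x3, σ x, σ x1, σ x2, σ x3].Nodup := by
    simp only [List.nodup_cons, List.mem_cons, not_or, List.not_mem_nil, not_false_eq_true,
      List.nodup_nil, and_true]
    exact ⟨⟨d01, d02, d03, i0.symm, c10.symm, q1.symm, q2.symm⟩,
      ⟨d12, d13, c01.symm, i1.symm, c21.symm, q3.symm⟩,
      ⟨d23, fun h => hA h.symm, c12.symm, i2.symm, c32.symm⟩,
      ⟨fun h => hD h.symm, fun h => hB h.symm, c23.symm, i3.symm⟩,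
      ⟨fun h => d01 (sinj h), fun h => d02 (sinj h), fun h => d03 (sinj h)⟩,
      ⟨fun h => d12 (sinj h), fun h => d13 (sinj h)⟩, fun h => d23 (sinj h)⟩
  have hv8 : v8 τ σ x = ![x, x1, x2, x3, σ x, σ x1, σ x2, σ x3] := by
    rw [v8, h1, h2, h3]
  have hs8 : ∀ i, σ (v8 τ σ x i) = v8 τ σ x (![4, 5, 6, 7, 0, 1, 2, 3] i) := by
    rw [hv8]
    intro i
    fin_cases i
    · rfl
    · rfl
    · rfl
    · rfl
    · exact (hσ x).1
    · exact (hσ x1).1
    · exact (hσ x2).1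
    · exact (hσ x3).1
  have hi8 : Injective (v8 τ σ x) := by rw [hv8]; exact inj8 hnd
  rcases window hτ hv hi8 hs8 0 1 2 3 4 (by rw [hv8]; exact h1) (by rw [hv8]; exact h2)
      (by rw [hv8]; exact h3) (by decide) (fun T => ∀ i, T i = i + 1)
      (fun T t t0 t1 t2 t3 t4 => tabA T t t0 t1 t2 t3 t4)
      (by
        rw [show ext ![4, 5, 6, 7, 0, 1, 2, 3] = ![1, 0, 6, 7, 8, 9, 2, 3, 4, 5] by
          funext i; revert i; decide]
        exact fun T t t0 t1 t2 t3 t4 => tabA' T t t0 t1 t2 t3 t4) with h | ⟨T, hF, hT⟩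
  · exact Or.inl h
  · right
    refine ⟨hi8, fun i => ?_⟩
    have := hT (i + 4)
    rw [hF] at this
    have e1 : (![4, 5, 6, 7, 0, 1, 2, 3] : Fin 8 → Fin 8) (i + 4) = i :=
      (by decide : ∀ i : Fin 8, (![4, 5, 6, 7, 0, 1, 2, 3] : Fin 8 → Fin 8) (i + 4) = i) i
    have e2 : i + 4 + 1 = i + 5 := (by decide : ∀ i : Fin 8, i + 4 + 1 = i + 5) i
    rw [e1, e2] at this
    exact this

theorem frozen_ne {α : Type*} {τ σ : α → α} (hσ : IsM σ) {x z : α} (hF : Frozen τ σ x)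
    (hz : τ (σ (τ (σ z))) = σ z) : z ∉ Set.range (v8 τ σ x) := by
  rintro ⟨i, rfl⟩
  obtain ⟨hi8, hF⟩ := hF
  have hs4 : σ (v8 τ σ x i) = v8 τ σ x (i + 4) := by
    fin_cases i
    · rfl
    · rfl
    · rfl
    · rfl
    · exact (hσ _).1
    · exact (hσ _).1
    · exact (hσ _).1
    · exact (hσ _).1
  rw [hs4] at hz
  obtain ⟨k, hk, hk'⟩ := hF i
  have hz2 : (τ ∘ σ)^[1 + 1] (v8 τ σ x i) = v8 τ σ x (i + 4) := by
    show τ (σ (τ (σ (v8 τ σ x i)))) = _
    rw [hs4]; exact hz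
  rcases Nat.lt_trichotomy k 1 with h | h | h
  · obtain rfl : k = 0 := by omega
    have h1 : (τ ∘ σ) (v8 τ σ x i) = v8 τ σ x (i + 5) := hk
    have h2 : FR (τ ∘ σ) (Set.range (v8 τ σ x)) (v8 τ σ x (i + 5)) (v8 τ σ x (i + 4)) := by
      apply FR.one
      rw [← h1]; exact hz2
    have h3 := hi8 (FR.uniq (S := Set.range (v8 τ σ x)) ⟨_, rfl⟩ ⟨_, rfl⟩ h2 (hF (i + 5)))
    exact (by decide : ∀ i : Fin 8, i + 4 ≠ i + 5 + 5) i h3
  · subst h
    rw [hz2] at hk
    exact (by decide : ∀ i : Fin 8, i + 4 ≠ i + 5) i (hi8 hk)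
  · exact hk' 1 h (by rw [hz2]; exact ⟨_, rfl⟩)

theorem frozen_front {α : Type*} [Fintype α] {τ σ : α → α} (hτ : Tr τ) (hv : Valid τ σ)
    (hc : 4 < Fintype.card α) {x y : α} (hy : Hd τ σ y) (hF : Frozen τ σ x) :
    ∃ σ', Rc τ 4 σ σ' ∧ Hd τ σ' x := by
  classical
  obtain ⟨hy1, hy2⟩ := hy
  have hσ := hv.1
  have hy3 : σ (τ (τ y)) = y := by rw [← hy1, (hσ y).1]
  have hy4 : σ (τ (τ (τ y))) = τ y := by rw [← hy2, (hσ _).1]
  have hyU : y ∉ Set.range (v8 τ σ x) := by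
    apply frozen_ne hσ hF
    rw [hy1, hy4]
  have hzU : τ (τ (τ y)) ∉ Set.range (v8 τ σ x) := by
    apply frozen_ne hσ hF
    rw [hy4, hy3]
  obtain ⟨hi8, hF⟩ := hF
  set S := Set.range (v8 τ σ x) with hSdef
  have hs8 : ∀ i, σ (v8 τ σ x i) = v8 τ σ x (![4, 5, 6, 7, 0, 1, 2, 3] i) := by
    intro i
    fin_cases i
    · rfl
    · rfl
    · rfl
    · rfl
    · exact (hσ _).1
    · exact (hσ _).1
    · exact (hσ _).1
    · exact (hσ _).1
  have hsyU : σ y ∉ S := by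
    rintro ⟨i, hi⟩
    apply hyU
    rw [← (hσ y).1, ← hi, hs8]
    exact ⟨_, rfl⟩
  set ι' : Fin 10 → α := Matrix.vecCons y (Matrix.vecCons (σ y) (v8 τ σ x)) with hι'
  have hι'inj : Injective ι' := by
    rw [hι']
    unfold Matrix.vecCons
    rw [Fin.cons_injective_iff, Fin.cons_injective_iff]
    refine ⟨?_, hsyU, hi8⟩
    rintro ⟨i, hi⟩
    refine Fin.cases ?_ (fun j => ?_) i hi
    · intro h
      simp only [Fin.cons_zero] at h
      exact (hσ y).2 h
    · intro h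
      simp only [Fin.cons_succ] at h
      exact hyU ⟨j, h⟩
  have hs' : ∀ i, σ (ι' i) = ι' (![1, 0, 6, 7, 8, 9, 2, 3, 4, 5] i) := by
    intro i
    fin_cases i
    · rfl
    · exact (hσ y).1
    · rfl
    · rfl
    · rfl
    · rfl
    · exact (hσ _).1
    · exact (hσ _).1
    · exact (hσ _).1
    · exact (hσ _).1
  have hsub : S ⊆ Set.range ι' := by
    rintro z ⟨j, rfl⟩
    exact ⟨j.succ.succ, rfl⟩
  have hnot : τ (τ (τ y)) ∉ Set.range ι' := by
    rintro ⟨i, hi⟩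
    refine Fin.cases ?_ (fun j => ?_) i hi
    · intro h
      exact hτ.ne (x := y) (j := 3) (by omega) (by omega) h.symm
    · refine Fin.cases ?_ (fun l => ?_) j
      · intro h
        have h' : σ y = τ (τ (τ y)) := h
        rw [hy1] at h'
        exact hτ.ne (x := τ (τ y)) (j := 1) (by omega) (by omega) h'.symm
      · intro h
        exact hzU ⟨l, h⟩
  obtain ⟨T', hT', hTr', hTl', hRc'⟩ := transfer hτ.inj hv hι'inj hs'
  have hTs' : Tr (T' ∘ ![1, 0, 6, 7, 8, 9, 2, 3, 4, 5]) :=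
    (hTr' _ (by unfold IsM; decide)).1 (by rw [L_self hι'inj hs']; exact hv.2)
  have hef : FR (τ ∘ σ) (Set.range ι') (ι' 0) (ι' 1) := by
    refine FR.trans (y := τ (τ (τ y))) (FR.one ?_) hnot (FR.one ?_)
    · show τ (σ y) = _
      rw [hy1]
    · show τ (σ (τ (τ (τ y)))) = σ y
      rw [hy4, hy1]
  have t1 : T' 1 = 1 :=
    hι'inj (FR.uniq (S := Set.range ι') ⟨_, rfl⟩ ⟨_, rfl⟩ (hT' 1) hef)
  have hno : ¬ FR (τ ∘ σ) S (v8 τ σ x 7) (v8 τ σ x 0) := by
    intro h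
    have := hi8 (FR.uniq (S := S) ⟨_, rfl⟩ ⟨_, rfl⟩ h (hF 7))
    exact absurd this (by decide)
  have t5 : T' 5 ≠ 2 := by
    intro h
    have h1 := hT' 5
    rw [h] at h1
    exact hno (h1.mono hsub)
  have t6 : ¬ (T' 5 = 0 ∧ T' 0 = 2) := by
    rintro ⟨h, h'⟩
    have h1 := hT' 5
    rw [h] at h1
    have h2 := hT' 0
    rw [h'] at h2
    exact hno ((h1.mono hsub).trans hyU ((hef.mono hsub).trans hsyU (h2.mono hsub)))
  obtain ⟨s', r1, r2, r3⟩ := tabP T' hTs' t1 (hTl' 2 3 rfl) (hTl' 3 4 rfl) (hTl' 4 5 rfl) t5 t6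
  refine ⟨L ι' σ s', hRc' _ _ r1, ?_, ?_⟩
  · show L ι' σ s' (ι' 2) = ι' 4
    rw [L_apply hι'inj, r2]
  · show L ι' σ s' (ι' 3) = ι' 5
    rw [L_apply hι'inj, r3]

def Cm {α : Type*} (τ σ : α → α) : Prop := ∀ x, σ (τ x) = τ (σ x)

theorem cm_of_frozen {α : Type*} [Fintype α] {τ σ : α → α} (hτ : Tr τ) (hv : Valid τ σ)
    (hF : ∀ y, Frozen τ σ y) : Cm τ σ := by
  classical
  have hσ := hv.1
  set φ := τ ∘ σ with hφ
  set N := Fintype.card α with hN
  have hex : ∀ x, ∃ k, φ^[k] x = σ x := fun x => hv.2 x (σ x)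
  set Ln : α → ℕ := fun x => Nat.find (hex x) with hLn
  have L1 : ∀ x, φ^[Ln x] x = σ x := fun x => Nat.find_spec (hex x)
  have L2 : ∀ x, Ln x < N := by
    intro x
    obtain ⟨k, hk, hk'⟩ := hv.2.exists_lt x (σ x)
    exact lt_of_le_of_lt (Nat.find_min' (hex x) hk') hk
  have L3 : ∀ x, 0 < Ln x := by
    intro x
    rcases Nat.eq_zero_or_pos (Ln x) with h | h
    · have := L1 x
      rw [h] at this
      exact absurd this.symm (hσ x).2
    · exact h
  have L4 : ∀ x, Ln x + Ln (σ x) = N := by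
    intro x
    have h1 : φ^[Ln (σ x) + Ln x] x = x := by
      rw [iterate_add_apply, L1, L1, (hσ x).1]
    have h2 := hv.2.dvd h1
    rw [← hN] at h2
    obtain ⟨c, hc⟩ := h2
    have a1 := L2 x
    have a2 := L2 (σ x)
    have a3 := L3 x
    have hc1 : c = 1 := by
      rcases c with _ | _ | c
      · omega
      · rfl
      · exfalso
        have : N * (c + 1 + 1) = N * c + 2 * N := by ring
        have : 0 ≤ N * c := Nat.zero_le _
        omega
    rw [hc1] at hc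
    omega
  have hKey : ∀ y, ∃ k, φ^[k + 1] y = σ (τ y) ∧ N + k ≤ Ln y + Ln (τ y) := by
    intro y
    obtain ⟨hi8, hFy⟩ := hF y
    obtain ⟨k, hk, hk'⟩ := hFy 0
    have hk1 : φ^[k + 1] y = σ (τ y) := hk
    refine ⟨k, hk1, ?_⟩
    have hlt : k + 1 < Ln y := by
      by_contra hle
      rcases Nat.lt_or_ge (Ln y) (k + 1) with h | h
      · have h0 := L3 y
        refine hk' (Ln y - 1) (by omega) ?_
        rw [show Ln y - 1 + 1 = Ln y by omega]
        exact ⟨4, (L1 y).symm⟩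
      · have he : Ln y = k + 1 := by omega
        have h2 := L1 y
        rw [he, hk1] at h2
        have h3 : v8 τ σ y 5 = v8 τ σ y 4 := h2
        exact absurd (hi8 h3) (by decide)
    have h1 : φ^[Ln y + 1] y = τ y := by
      rw [iterate_succ_apply', L1]
      show τ (σ (σ y)) = τ y
      rw [(hσ y).1]
    have h2 : φ^[Ln (τ y) + (Ln y + 1)] y = φ^[k + 1] y := by
      rw [iterate_add_apply, h1, L1, hk1]
    have h3 : φ^[Ln (τ y) + Ln y - k] y = y := by
      have hinj : Injective (φ^[k + 1]) := hv.2.inj.iterate _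
      apply hinj
      rw [← iterate_add_apply, show k + 1 + (Ln (τ y) + Ln y - k) = Ln (τ y) + (Ln y + 1) by omega]
      exact h2
    have h4 := Nat.le_of_dvd (by omega) (hv.2.dvd h3)
    rw [← hN] at h4
    omega
  choose K hK1 hK2 using hKey
  have hτb : Bijective τ := ⟨hτ.inj, hτ.surj⟩
  have hσb : Bijective σ := ⟨hσ.inj, fun y => ⟨σ y, (hσ y).1⟩⟩
  have hsum1 : ∑ y, (Ln y + Ln (τ y)) = ∑ _y : α, N := by
    rw [Finset.sum_add_distrib, hτb.sum_comp Ln]
    rw [← Finset.sum_congr rfl (fun y _ => L4 y), Finset.sum_add_distrib, hσb.sum_comp Ln]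
  have hle : ∀ y ∈ (Finset.univ : Finset α), N ≤ Ln y + Ln (τ y) := fun y _ =>
    le_trans (Nat.le_add_right _ _) (hK2 y)
  have heq := (Finset.sum_eq_sum_iff_of_le hle).1 hsum1.symm
  intro y
  have h1 := heq y (Finset.mem_univ y)
  have h2 := hK2 y
  have h3 : K y = 0 := by omega
  have h4 := hK1 y
  rw [h3] at h4
  exact h4.symm

theorem handle_any {α : Type*} [Fintype α] {τ σ : α → α} (hτ : Tr τ) (hv : Valid τ σ)
    (hc : 4 < Fintype.card α) (hCm : ¬ Cm τ σ) (x : α) :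
    ∃ σ', Rc τ 8 σ σ' ∧ Hd τ σ' x := by
  have hex : ∃ y, ¬ Frozen τ σ y := by
    by_contra hcon
    push Not at hcon
    exact hCm (cm_of_frozen hτ hv hcon)
  obtain ⟨y, hy⟩ := hex
  obtain ⟨σ1, h1, h2⟩ := (front hτ hv hc y).resolve_right hy
  have hv1 := h1.valid hv
  rcases front hτ hv1 hc x with ⟨σ', h3, h4⟩ | hF
  · exact ⟨σ', h1.trans h3, h4⟩
  · obtain ⟨σ', h3, h4⟩ := frozen_front hτ hv1 hc h2 hF
    exact ⟨σ', h1.trans h3, h4⟩

/-! ### Removing a handle -/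

theorem cm_ne {α : Type*} [Fintype α] {τ σ : α → α} (hτ : Tr τ) (hσ : IsM σ) (hCm : Cm τ σ)
    (hc : 4 < Fintype.card α) (y : α) : σ y ≠ τ y ∧ σ y ≠ τ (τ y) := by
  constructor
  · intro h
    refine hτ.ne (x := y) (j := 2) (by omega) (by omega) ?_
    show τ (τ y) = y
    rw [← h, ← hCm, ← h, (hσ y).1]
  · intro h
    refine hτ.ne (x := y) (j := 4) (by omega) (by omega) ?_
    show τ (τ (τ (τ y))) = y
    rw [← h, ← hCm, ← hCm, ← h, (hσ y).1]

theorem cm_iter {α : Type*} {τ σ : α → α} (hCm : Cm τ σ) (k : ℕ) (x : α) :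
    σ (τ^[k] x) = τ^[k] (σ x) := by
  induction k with
  | zero => rfl
  | succ k ih => rw [iterate_succ_apply', iterate_succ_apply', hCm, ih]

theorem cm_half {α : Type*} [Fintype α] {τ σ : α → α} (hτ : Tr τ) (hσ : IsM σ) (hCm : Cm τ σ)
    (x : α) : ∃ k, 2 * k = Fintype.card α ∧ σ x = τ^[k] x := by
  obtain ⟨k, hk, hk'⟩ := hτ.exists_lt x (σ x)
  refine ⟨k, ?_, hk'.symm⟩
  have h1 : τ^[k + k] x = x := by
    rw [iterate_add_apply, hk', ← cm_iter hCm, hk', (hσ x).1]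
  have h2 := hτ.dvd h1
  have h0 : 0 < k := by
    rcases Nat.eq_zero_or_pos k with h | h
    · subst h
      exact absurd hk'.symm (hσ x).2
    · exact h
  obtain ⟨c, hc⟩ := h2
  have hc1 : c = 1 := by
    rcases c with _ | _ | c
    · omega
    · rfl
    · exfalso
      have : Fintype.card α * (c + 1 + 1) = Fintype.card α * c + 2 * Fintype.card α := by ring
      have : 0 ≤ Fintype.card α * c := Nat.zero_le _
      omega
  rw [hc1] at hc
  omega

theorem cm_unique {α : Type*} [Fintype α] {τ σ ρ : α → α} (hτ : Tr τ) (hσ : IsM σ)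
    (hρ : IsM ρ) (h1 : Cm τ σ) (h2 : Cm τ ρ) : σ = ρ := by
  funext x
  obtain ⟨k, hk, hk'⟩ := cm_half hτ hσ h1 x
  obtain ⟨l, hl, hl'⟩ := cm_half hτ hρ h2 x
  rw [hk', hl', show k = l by omega]

theorem card4 {α : Type*} [Fintype α] {τ σ ρ : α → α} (hτ : Tr τ) (hσ : Valid τ σ)
    (hρ : Valid τ ρ) (hc : Fintype.card α = 4) : σ = ρ := by
  have key : ∀ σ : α → α, Valid τ σ → ∀ x, σ x = τ (τ x) := by
    intro σ hσ x
    have nc : ∀ y, σ y ≠ τ y := by
      intro y hy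
      refine hσ.2.ne (x := τ y) (j := 1) (by omega) (by omega) ?_
      show τ (σ (τ y)) = τ y
      rw [← hy, (hσ.1 y).1, hy]
    obtain ⟨k, hk, hk'⟩ := hτ.exists_lt x (σ x)
    rw [hc] at hk
    interval_cases k
    · exact absurd hk'.symm (hσ.1 x).2
    · exact absurd hk'.symm (nc x)
    · exact hk'.symm
    · exfalso
      have h4 := hτ.card_iter x
      rw [hc] at h4
      have h4' : τ (τ^[3] x) = x := by rw [← iterate_succ_apply' τ 3 x]; exact h4
      apply nc (τ^[3] x)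
      rw [h4', hk', (hσ.1 x).1]
  funext x
  rw [key σ hσ, key ρ hρ]

theorem removal {α : Type*} [Fintype α] {τ : α → α} (hτ : Tr τ)
    (hc : 4 < Fintype.card α) (x : α) :
    ∃ T' : {z : α // z ∉ ({x, τ x, τ (τ x), τ (τ (τ x))} : Set α)} →
        {z : α // z ∉ ({x, τ x, τ (τ x), τ (τ (τ x))} : Set α)},
      Tr T' ∧ (∀ z, τ z.1 ≠ x → (T' z).1 = τ z.1) ∧
      (τ (τ (τ (τ x))) ∉ ({x, τ x, τ (τ x), τ (τ (τ x))} : Set α)) ∧
      ∀ σ, Valid τ σ → Hd τ σ x → ∃ s, (∀ i, σ i.1 = (s i).1) ∧ Valid T' s ∧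
        ∀ k s', Rc T' k s s' → Rc τ k σ (L Subtype.val σ s') := by
  classical
  set S : Set α := {x, τ x, τ (τ x), τ (τ (τ x))} with hS
  have n1 : ∀ y, y ≠ τ y := fun y => (hτ.ne (x := y) (j := 1) (by omega) (by omega)).symm
  have n2 : ∀ y, y ≠ τ (τ y) := fun y => (hτ.ne (x := y) (j := 2) (by omega) (by omega)).symm
  have n3 : ∀ y, y ≠ τ (τ (τ y)) := fun y =>
    (hτ.ne (x := y) (j := 3) (by omega) (by omega)).symm
  have n4 : ∀ y, y ≠ τ (τ (τ (τ y))) := fun y =>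
    (hτ.ne (x := y) (j := 4) (by omega) (by omega)).symm
  have hx4 : τ (τ (τ (τ x))) ∉ S := by
    rintro (h | h | h | h)
    · exact n4 x h.symm
    · exact n3 (τ x) h.symm
    · exact n2 (τ (τ x)) h.symm
    · exact n1 (τ (τ (τ x))) h.symm
  have hstep : ∀ z : α, z ∉ S → τ z ≠ x → τ z ∉ S := by
    intro z hz hzx
    rintro (h | h | h | h)
    · exact hzx h
    · exact hz (Or.inl (hτ.inj h))
    · exact hz (Or.inr (Or.inl (hτ.inj h)))
    · exact hz (Or.inr (Or.inr (Or.inl (hτ.inj h))))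
  let T' : {z : α // z ∉ S} → {z : α // z ∉ S} := fun z =>
    if h : τ z.1 = x then ⟨τ (τ (τ (τ x))), hx4⟩ else ⟨τ z.1, hstep z.1 z.2 h⟩
  have hT'1 : ∀ z, τ z.1 = x → (T' z).1 = τ (τ (τ (τ x))) := by
    intro z h
    simp only [T', dif_pos h]
  have hT'2 : ∀ z, τ z.1 ≠ x → (T' z).1 = τ z.1 := by
    intro z h
    simp only [T', dif_neg h]
  have hinj : Injective (Subtype.val : {z : α // z ∉ S} → α) := Subtype.val_injective
  have hrange : ∀ z : α, z ∉ Set.range (Subtype.val : {z : α // z ∉ S} → α) ↔ z ∈ S := by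
    intro z
    rw [Subtype.range_coe_subtype]
    simp
  have hTr : Tr T' := by
    refine (tr_iff hτ.inj hinj (h := T') ?_ ?_).1 hτ
    · intro z
      by_cases h : τ z.1 = x
      · rw [hT'1 z h]
        refine FR.trans (y := x) (FR.one h) ((hrange _).2 (Or.inl rfl)) ?_
        refine FR.trans (y := τ x) (FR.one rfl) ((hrange _).2 (Or.inr (Or.inl rfl))) ?_
        refine FR.trans (y := τ (τ x)) (FR.one rfl) ((hrange _).2 (Or.inr (Or.inr (Or.inl rfl)))) ?_
        exact FR.trans (y := τ (τ (τ x))) (FR.one rfl)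
          ((hrange _).2 (Or.inr (Or.inr (Or.inr rfl)))) (FR.one rfl)
      · rw [hT'2 z h]
        exact FR.one rfl
    · intro z
      obtain ⟨k, hk⟩ := hτ z (τ (τ (τ (τ x))))
      exact ⟨k, ⟨_, hx4⟩, hk.symm⟩
  refine ⟨T', hTr, hT'2, hx4, ?_⟩
  intro σ hv hH
  obtain ⟨hH1, hH2⟩ := hH
  have hσ := hv.1
  have hH3 : σ (τ (τ x)) = x := by rw [← hH1, (hσ x).1]
  have hH4 : σ (τ (τ (τ x))) = τ x := by rw [← hH2, (hσ _).1]
  have hcl : ∀ z : α, z ∈ S → σ z ∈ S := by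
    rintro z (h | h | h | h)
    · rw [h, hH1]; exact Or.inr (Or.inr (Or.inl rfl))
    · rw [h, hH2]; exact Or.inr (Or.inr (Or.inr rfl))
    · rw [h, hH3]; exact Or.inl rfl
    · rw [h, hH4]; exact Or.inr (Or.inl rfl)
  have hcl' : ∀ z : {z : α // z ∉ S}, σ z.1 ∉ S := by
    intro z h
    have := hcl _ h
    rw [(hσ _).1] at this
    exact z.2 this
  let s : {z : α // z ∉ S} → {z : α // z ∉ S} := fun z => ⟨σ z.1, hcl' z⟩
  have hs : ∀ i : {z : α // z ∉ S}, σ i.1 = (s i).1 := fun i => rfl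
  have : Nonempty {z : α // z ∉ S} := ⟨⟨_, hx4⟩⟩
  obtain ⟨T, hT, hTr2, hTl, hRc⟩ := transfer hτ.inj hv hinj hs
  have hss : ∀ i, (s (s i)).1 = i.1 := fun i => (hσ i.1).1
  have hTT : T = T' := by
    funext z
    by_cases h : τ z.1 = x
    · refine hinj (FR.uniq (S := Set.range (Subtype.val : {z : α // z ∉ S} → α))
        ⟨_, rfl⟩ ⟨_, rfl⟩ (hT z) ?_)
      rw [hT'1 z h]
      refine FR.trans (y := x) (FR.one ?_) ((hrange _).2 (Or.inl rfl)) ?_
      · show τ (σ (s z).1) = x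
        rw [hs (s z), hss, h]
      refine FR.trans (y := τ (τ (τ x))) (FR.one ?_)
        ((hrange _).2 (Or.inr (Or.inr (Or.inr rfl)))) ?_
      · show τ (σ x) = _
        rw [hH1]
      refine FR.trans (y := τ (τ x)) (FR.one ?_)
        ((hrange _).2 (Or.inr (Or.inr (Or.inl rfl)))) ?_
      · show τ (σ (τ (τ (τ x)))) = _
        rw [hH4]
      refine FR.trans (y := τ x) (FR.one ?_) ((hrange _).2 (Or.inr (Or.inl rfl))) (FR.one ?_)
      · show τ (σ (τ (τ x))) = _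
        rw [hH3]
      · show τ (σ (τ x)) = _
        rw [hH2]
    · exact hTl _ _ (hT'2 z h).symm
  have hsM : IsM s := fun i => ⟨hinj (hss i), fun h => (hσ i.1).2 (by rw [hs, h])⟩
  subst hTT
  refine ⟨s, hs, ⟨hsM, (hTr2 s hsM).1 (by rw [L_self hinj hs]; exact hv.2)⟩, hRc⟩

theorem step_one {α : Type*} [Fintype α] {τ σ : α → α} (hτ : Tr τ) (hv : Valid τ σ)
    (hc : 8 < Fintype.card α) (hCm : ¬ Cm τ σ) (x : α) (S : Set α)
    (hS : ∀ z, z ∉ S ↔ (z ≠ x ∧ z ≠ τ x ∧ z ≠ τ (τ x) ∧ z ≠ τ (τ (τ x))))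
    [Fintype {z : α // z ∉ S}] (T' : {z : α // z ∉ S} → {z : α // z ∉ S})
    (hcard : Fintype.card {z : α // z ∉ S} + 4 = Fintype.card α)
    (hT' : Tr T') (hT'2 : ∀ z, τ z.1 ≠ x → (T' z).1 = τ z.1)
    (hx4 : τ (τ (τ (τ x))) ∉ S)
    (hrem : ∀ σ, Valid τ σ → Hd τ σ x → ∃ s : {z : α // z ∉ S} → {z : α // z ∉ S},
      (∀ i, σ i.1 = (s i).1) ∧ Valid T' s ∧
        ∀ k s', Rc T' k s s' → Rc τ k σ (L Subtype.val σ s')) :
    ∃ σ', Rc τ 12 σ σ' ∧ Hd τ σ' x ∧
      ∀ s : {z : α // z ∉ S} → {z : α // z ∉ S}, (∀ i, σ' i.1 = (s i).1) → ¬ Cm T' s := by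
  classical
  obtain ⟨σ1, h1, h2⟩ := handle_any hτ hv (by omega) hCm x
  have hv1 := h1.valid hv
  obtain ⟨s1, hs1, hvs1, -⟩ := hrem σ1 hv1 h2
  have hinj : Injective (Subtype.val : {z : α // z ∉ S} → α) := Subtype.val_injective
  by_cases hCm1 : Cm T' s1
  swap
  · refine ⟨σ1, h1.mono (by omega), h2, ?_⟩
    intro s hs
    have : s = s1 := by
      funext i
      apply hinj
      rw [← hs, ← hs1]
    rw [this]; exact hCm1
  · have nn : ∀ (y : α) (j : ℕ), 0 < j → j ≤ 8 → τ^[j] y ≠ y := fun y j h0 hj =>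
      hτ.ne (x := y) (j := j) h0 (by omega)
    have n1 : ∀ y, y ≠ τ y := fun y => (nn y 1 (by omega) (by omega)).symm
    have n2 : ∀ y, y ≠ τ (τ y) := fun y => (nn y 2 (by omega) (by omega)).symm
    have n3 : ∀ y, y ≠ τ (τ (τ y)) := fun y => (nn y 3 (by omega) (by omega)).symm
    have n4 : ∀ y, y ≠ τ (τ (τ (τ y))) := fun y => (nn y 4 (by omega) (by omega)).symm
    have n5 : ∀ y, y ≠ τ (τ (τ (τ (τ y)))) := fun y => (nn y 5 (by omega) (by omega)).symm
    have n6 : ∀ y, y ≠ τ (τ (τ (τ (τ (τ y))))) := fun y => (nn y 6 (by omega) (by omega)).symm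
    obtain ⟨x1, e1⟩ : ∃ x1, τ x = x1 := ⟨_, rfl⟩
    obtain ⟨x2, e2⟩ : ∃ x2, τ x1 = x2 := ⟨_, rfl⟩
    obtain ⟨x3, e3⟩ : ∃ x3, τ x2 = x3 := ⟨_, rfl⟩
    obtain ⟨x4, e4⟩ : ∃ x4, τ x3 = x4 := ⟨_, rfl⟩
    obtain ⟨x5, e5⟩ : ∃ x5, τ x4 = x5 := ⟨_, rfl⟩
    obtain ⟨x6, e6⟩ : ∃ x6, τ x5 = x6 := ⟨_, rfl⟩
    have hSmem : ∀ z, z ∉ S ↔ (z ≠ x ∧ z ≠ x1 ∧ z ≠ x2 ∧ z ≠ x3) := by
      intro z
      rw [hS, e1, e2, e3]
    rw [e1, e2, e3, e4] at hx4
    have hx5 : x5 ∉ S := by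
      rw [hSmem]
      refine ⟨?_, ?_, ?_, ?_⟩
      · rw [← e5, ← e4, ← e3, ← e2, ← e1]; exact (n5 x).symm
      · rw [← e5, ← e4, ← e3, ← e2]; exact (n4 x1).symm
      · rw [← e5, ← e4, ← e3]; exact (n3 x2).symm
      · rw [← e5, ← e4]; exact (n2 x3).symm
    have hx6 : x6 ∉ S := by
      rw [hSmem]
      refine ⟨?_, ?_, ?_, ?_⟩
      · rw [← e6, ← e5, ← e4, ← e3, ← e2, ← e1]; exact (n6 x).symm
      · rw [← e6, ← e5, ← e4, ← e3, ← e2]; exact (n5 x1).symm
      · rw [← e6, ← e5, ← e4, ← e3]; exact (n4 x2).symm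
      · rw [← e6, ← e5, ← e4]; exact (n3 x3).symm
    have t4 : T' ⟨x4, hx4⟩ = ⟨x5, hx5⟩ := by
      apply hinj
      rw [hT'2 _ (by rw [e5]; exact ((hSmem _).1 hx5).1)]
      exact e5
    have t5 : T' ⟨x5, hx5⟩ = ⟨x6, hx6⟩ := by
      apply hinj
      rw [hT'2 _ (by rw [e6]; exact ((hSmem _).1 hx6).1)]
      exact e6
    have hS1 := hvs1.1
    have hne := cm_ne hT' hS1 hCm1 (by omega)
    have a45 : σ1 x4 ≠ x5 := by
      intro h
      apply (hne ⟨x4, hx4⟩).1
      rw [t4]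
      apply hinj
      rw [← hs1]; exact h
    have a46 : σ1 x4 ≠ x6 := by
      intro h
      apply (hne ⟨x4, hx4⟩).2
      rw [t4, t5]
      apply hinj
      rw [← hs1]; exact h
    have a56 : σ1 x5 ≠ x6 := by
      intro h
      apply (hne ⟨x5, hx5⟩).1
      rw [t5]
      apply hinj
      rw [← hs1]; exact h
    have hσ1 := hv1.1
    have sflip : ∀ y z, σ1 y = z → σ1 z = y := fun y z h => by rw [← h, (hσ1 y).1]
    have sinj := hσ1.inj
    have a54 : σ1 x5 ≠ x4 := fun h => a45 (sflip _ _ h)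
    have a64 : σ1 x6 ≠ x4 := fun h => a46 (sflip _ _ h)
    have a65 : σ1 x6 ≠ x5 := fun h => a56 (sflip _ _ h)
    have b4 : σ1 x4 ∉ S := by have := (s1 ⟨x4, hx4⟩).2; rwa [← hs1] at this
    have b5 : σ1 x5 ∉ S := by have := (s1 ⟨x5, hx5⟩).2; rwa [← hs1] at this
    have b6 : σ1 x6 ∉ S := by have := (s1 ⟨x6, hx6⟩).2; rwa [← hs1] at this
    rw [hSmem] at b4 b5 b6
    have f4 := (hSmem _).1 hx4
    have f5 := (hSmem _).1 hx5
    have f6 := (hSmem _).1 hx6
    have d01 : x ≠ x1 := by rw [← e1]; exact n1 x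
    have d02 : x ≠ x2 := by rw [← e2, ← e1]; exact n2 x
    have d03 : x ≠ x3 := by rw [← e3, ← e2, ← e1]; exact n3 x
    have d12 : x1 ≠ x2 := by rw [← e2]; exact n1 x1
    have d13 : x1 ≠ x3 := by rw [← e3, ← e2]; exact n2 x1
    have d23 : x2 ≠ x3 := by rw [← e3]; exact n1 x2
    have d45 : x4 ≠ x5 := by rw [← e5]; exact n1 x4
    have d46 : x4 ≠ x6 := by rw [← e6, ← e5]; exact n2 x4
    have d56 : x5 ≠ x6 := by rw [← e6]; exact n1 x5
    have hnd : [x, x1, x2, x3, x4, x5, x6, σ1 x4, σ1 x5, σ1 x6].Nodup := by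
      simp only [List.nodup_cons, List.mem_cons, not_or, List.not_mem_nil, not_false_eq_true,
        List.nodup_nil, and_true]
      exact ⟨⟨d01, d02, d03, f4.1.symm, f5.1.symm, f6.1.symm, b4.1.symm, b5.1.symm, b6.1.symm⟩,
        ⟨d12, d13, f4.2.1.symm, f5.2.1.symm, f6.2.1.symm, b4.2.1.symm, b5.2.1.symm, b6.2.1.symm⟩,
        ⟨d23, f4.2.2.1.symm, f5.2.2.1.symm, f6.2.2.1.symm, b4.2.2.1.symm, b5.2.2.1.symm,
          b6.2.2.1.symm⟩,
        ⟨f4.2.2.2.symm, f5.2.2.2.symm, f6.2.2.2.symm, b4.2.2.2.symm, b5.2.2.2.symm,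
          b6.2.2.2.symm⟩,
        ⟨d45, d46, (hσ1 x4).2.symm, a54.symm, a64.symm⟩,
        ⟨d56, a45.symm, (hσ1 x5).2.symm, a65.symm⟩,
        ⟨a46.symm, a56.symm, (hσ1 x6).2.symm⟩,
        ⟨fun h => d45 (sinj h), fun h => d46 (sinj h)⟩, fun h => d56 (sinj h)⟩
    have hHd := h2
    obtain ⟨g1, g2⟩ := h2
    rw [e1, e2] at g1
    rw [e1, e2, e3] at g2
    obtain ⟨T, hT, hTr, hTl, hRc⟩ := transfer hτ.inj hv1 (inj10 hnd)
      (s := ![2, 3, 0, 1, 7, 8, 9, 4, 5, 6])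
      (by
        intro i
        fin_cases i
        · exact g1
        · exact g2
        · exact sflip _ _ g1
        · exact sflip _ _ g2
        · rfl
        · rfl
        · rfl
        · exact (hσ1 x4).1
        · exact (hσ1 x5).1
        · exact (hσ1 x6).1)
    have hTs : Tr (T ∘ ![2, 3, 0, 1, 7, 8, 9, 4, 5, 6]) :=
      (hTr _ (by unfold IsM; decide)).1 (by
        rw [L_self (inj10 hnd)]
        · exact hv1.2
        · intro i
          fin_cases i
          · exact g1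
          · exact g2
          · exact sflip _ _ g1
          · exact sflip _ _ g2
          · rfl
          · rfl
          · rfl
          · exact (hσ1 x4).1
          · exact (hσ1 x5).1
          · exact (hσ1 x6).1)
    obtain ⟨s', r1, r2, r3, r4⟩ := tabLB T hTs (hTl 0 1 e1) (hTl 1 2 e2) (hTl 2 3 e3)
      (hTl 3 4 e4) (hTl 4 5 e5) (hTl 5 6 e6)
    have hRc' := hRc _ _ r1
    have hι := inj10 hnd
    set ι : Fin 10 → α := ![x, x1, x2, x3, x4, x5, x6, σ1 x4, σ1 x5, σ1 x6] with hιdef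
    have hv2 := hRc'.valid hv1
    have hH' : Hd τ (L ι σ1 s') x := by
      constructor
      · rw [e1, e2]
        show L ι σ1 s' (ι 0) = ι 2
        rw [L_apply hι, r2]
      · rw [e1, e2, e3]
        show L ι σ1 s' (ι 1) = ι 3
        rw [L_apply hι, r3]
    refine ⟨L ι σ1 s', h1.trans hRc', hH', ?_⟩
    intro s hs hCs
    obtain ⟨s2, hs2, hvs2, -⟩ := hrem _ hv2 hH'
    have e : s = s2 := by
      funext i
      apply hinj
      rw [← hs, ← hs2]
    subst e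
    have hss := cm_unique hT' hvs2.1 hS1 hCs hCm1
    have q1 := hs ⟨x4, hx4⟩
    rw [hss, ← hs1] at q1
    have q2 : L ι σ1 s' (ι 4) = ι (s' 4) := L_apply hι s' 4
    have q3 : ι (s' 4) = ι 7 := by
      rw [← q2]; exact q1
    exact r4 (hι q3)

theorem main : ∀ g : ℕ, 1 ≤ g → ∀ (α : Type) [Fintype α] (τ : α → α), Tr τ →
    Fintype.card α = 4 * g → ∀ σ ρ : α → α, Valid τ σ → Valid τ ρ →
    (g = 1 ∨ (¬ Cm τ σ ∧ ¬ Cm τ ρ)) → Rc τ (24 * g) σ ρ := by
  classical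
  intro g hg
  induction g, hg using Nat.le_induction with
  | base =>
    intro α _ τ hτ hc σ ρ hσ hρ _
    rw [card4 hτ hσ hρ (by omega)]
    exact Rc.refl _ _
  | succ g hg ih =>
    intro α _ τ hτ hc σ ρ hσ hρ hC
    have hC' : ¬ Cm τ σ ∧ ¬ Cm τ ρ := by
      rcases hC with h | h
      · omega
      · exact h
    have hne : Nonempty α := Fintype.card_pos_iff.1 (by omega)
    obtain ⟨x⟩ := hne
    obtain ⟨T', hT', hT'2, hx4, hrem⟩ := removal hτ (by omega) x
    have n1 : ∀ y, y ≠ τ y := fun y => (hτ.ne (x := y) (j := 1) (by omega) (by omega)).symm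
    have n2 : ∀ y, y ≠ τ (τ y) := fun y => (hτ.ne (x := y) (j := 2) (by omega) (by omega)).symm
    have n3 : ∀ y, y ≠ τ (τ (τ y)) := fun y =>
      (hτ.ne (x := y) (j := 3) (by omega) (by omega)).symm
    have hcard : Fintype.card {z : α // z ∉ ({x, τ x, τ (τ x), τ (τ (τ x))} : Set α)} + 4 =
        Fintype.card α := by
      have h1 := Fintype.card_subtype_compl
        (fun z : α => z ∈ ({x, τ x, τ (τ x), τ (τ (τ x))} : Set α))
      have h2 : Fintype.card {z : α // z ∈ ({x, τ x, τ (τ x), τ (τ (τ x))} : Set α)} = 4 := by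
        rw [Fintype.card_of_subtype ({x, τ x, τ (τ x), τ (τ (τ x))} : Finset α) (by simp)]
        rw [Finset.card_insert_of_notMem, Finset.card_insert_of_notMem,
          Finset.card_insert_of_notMem, Finset.card_singleton]
        · simpa using n1 (τ (τ x))
        · simp only [Finset.mem_insert, Finset.mem_singleton, not_or]
          exact ⟨n1 (τ x), n2 (τ x)⟩
        · simp only [Finset.mem_insert, Finset.mem_singleton, not_or]
          exact ⟨n1 x, n2 x, n3 x⟩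
      rw [h2] at h1
      have h3 : Fintype.card {z : α // z ∉ ({x, τ x, τ (τ x), τ (τ (τ x))} : Set α)} =
        Fintype.card α - 4 := by
        rw [← h1]
      omega
    have hinj : Injective (Subtype.val :
      {z : α // z ∉ ({x, τ x, τ (τ x), τ (τ (τ x))} : Set α)} → α) := Subtype.val_injective
    have key : ∀ σ : α → α, Valid τ σ → ¬ Cm τ σ → ∃ σ', Rc τ 12 σ σ' ∧ Hd τ σ' x ∧
        ∀ s : {z : α // z ∉ ({x, τ x, τ (τ x), τ (τ (τ x))} : Set α)} →
          {z : α // z ∉ ({x, τ x, τ (τ x), τ (τ (τ x))} : Set α)},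
          (∀ i, σ' i.1 = (s i).1) → (g = 1 ∨ ¬ Cm T' s) := by
      intro σ hσ hCσ
      rcases Nat.lt_or_ge 1 g with h | h
      · obtain ⟨σ', r1, r2, r3⟩ := step_one hτ hσ (by omega) hCσ x _ (by
          intro z; simp) T' hcard hT' hT'2 hx4 hrem
        exact ⟨σ', r1, r2, fun s hs => Or.inr (r3 s hs)⟩
      · obtain ⟨σ', r1, r2⟩ := handle_any hτ hσ (by omega) hCσ x
        exact ⟨σ', r1.mono (by omega), r2, fun s hs => Or.inl (by omega)⟩
    obtain ⟨σ', a1, a2, a3⟩ := key σ hσ hC'.1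
    obtain ⟨ρ', b1, b2, b3⟩ := key ρ hρ hC'.2
    obtain ⟨s, c1, c2, c3⟩ := hrem σ' (a1.valid hσ) a2
    obtain ⟨t, d1, d2, -⟩ := hrem ρ' (b1.valid hρ) b2
    have hmid : Rc T' (24 * g) s t := by
      apply ih _ T' hT' (by omega) s t c2 d2
      rcases a3 s c1 with h | h
      · exact Or.inl h
      · rcases b3 t d1 with h' | h'
        · exact Or.inl h'
        · exact Or.inr ⟨h, h'⟩
    have hlift := c3 _ _ hmid
    have heq : L Subtype.val σ' t = ρ' := by
      funext z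
      by_cases hz : z ∈ ({x, τ x, τ (τ x), τ (τ (τ x))} : Set α)
      · have hσ'M := (a1.valid hσ).1
        have hρ'M := (b1.valid hρ).1
        rw [L_off t (by rintro ⟨i, hi⟩; exact i.2 (hi ▸ hz))]
        rcases hz with h | h | h | h
        · rw [h, a2.1, b2.1]
        · rw [h, a2.2, b2.2]
        · rw [h, ← a2.1, (hσ'M x).1, a2.1, ← b2.1, (hρ'M x).1]
        · rw [h, ← a2.2, (hσ'M _).1, a2.2, ← b2.2, (hρ'M _).1]
      · have := L_apply (σ := σ') hinj t ⟨z, hz⟩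
        rw [← d1] at this
        exact this
    rw [heq] at hlift
    have := (a1.trans hlift).trans (b1.symm hρ)
    rw [show 24 * (g + 1) = 12 + 24 * g + 12 by ring]
    exact this

/-! ### Chord diagrams -/

/-- A chord diagram with `n` chords on the sides `ZMod (2 * n)` of the polygon (cyclically
numbered): the partner map of a perfect matching of the sides. -/
@[ext]
structure ChordDiagram (n : ℕ) where
  partner : ZMod (2 * n) → ZMod (2 * n)
  invol : ∀ i, partner (partner i) = i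
  noFix : ∀ i, partner i ≠ i

/-- Side `i` runs from vertex `i` to vertex `i + 1`.  Gluing side `i` to its partner `j` so that
the result is orientable identifies the end `i + 1` of side `i` with the start `j` of side `j`.
(For `i` replaced by `j` this is the other identification.) -/
def Glue {n : ℕ} (X : ChordDiagram n) (u v : ZMod (2 * n)) : Prop :=
  ∃ i, u = i + 1 ∧ v = X.partner i

/-- Number of classes of vertices after the identification. -/
noncomputable def numVertices {n : ℕ} (X : ChordDiagram n) : ℕ := Nat.card (Quot (Glue X))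

/-- `X` has genus `g`, that is `g = (n + 1 - V) / 2`. -/
def HasGenus {n : ℕ} (X : ChordDiagram n) (g : ℕ) : Prop := numVertices X + 2 * g = n + 1

/-- `Y` arises from `X` by a chord swap: for two distinct chords `{A, B}` and `{C, D}` of `X`
(`B`, `D` the partners of `A`, `C`) `Y` has the chords `{A, C}` and `{B, D}` instead.
Exchanging the names `C` and `D` gives the other kind. -/
def IsSwap {n : ℕ} (X Y : ChordDiagram n) : Prop :=
  ∃ A C, C ≠ A ∧ C ≠ X.partner A ∧ Y.partner A = C ∧ Y.partner C = A ∧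
    Y.partner (X.partner A) = X.partner C ∧ Y.partner (X.partner C) = X.partner A ∧
    ∀ z, z ≠ A → z ≠ C → z ≠ X.partner A → z ≠ X.partner C → Y.partner z = X.partner z

/-- The graph `G_{n,g}`. -/
def G (n g : ℕ) : SimpleGraph {X : ChordDiagram n // HasGenus X g} :=
  SimpleGraph.fromRel fun X Y => IsSwap X.1 Y.1

/-- The Bolza diagram matches opposite sides. -/
def IsBolza {n : ℕ} (X : ChordDiagram n) : Prop := ∀ i, X.partner i = i + n

/-- `D(n, g)`: largest distance in `G_{n,g}` between two diagrams, the isolated Bolza diagram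
(for `g = n / 2`) left out. -/
noncomputable def D (n g : ℕ) : ℕ :=
  sSup {d | ∃ X Y : {X : ChordDiagram n // HasGenus X g}, ¬ (2 * g = n ∧ IsBolza X.1) ∧
    ¬ (2 * g = n ∧ IsBolza Y.1) ∧ d = (G n g).dist X Y}

theorem tr_add (N : ℕ) [NeZero N] : Tr (fun x : ZMod N => x + 1) := by
  intro x y
  have h : ∀ (k : ℕ) (x : ZMod N), (fun x : ZMod N => x + 1)^[k] x = x + k := by
    intro k
    induction k with
    | zero => intro x; simp
    | succ k ih =>
      intro x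
      rw [iterate_succ_apply', ih]
      push_cast
      ring
  refine ⟨(y - x).val, ?_⟩
  rw [h, ZMod.natCast_zmod_val]
  ring

theorem iter_add (N : ℕ) (k : ℕ) (x : ZMod N) : (fun x : ZMod N => x + 1)^[k] x = x + k := by
  induction k with
  | zero => simp
  | succ k ih =>
    rw [iterate_succ_apply', ih]
    push_cast
    ring

theorem back {α : Type*} [Finite α] {f : α → α} (hf : Injective f) {x y : α} {k : ℕ}
    (h : f^[k] x = y) : ∃ l : ℕ, f^[l] y = x := by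
  obtain ⟨p, hp, hper⟩ := mem_periodicPts.1 (hf.mem_periodicPts x)
  refine ⟨k * p - k, ?_⟩
  rw [← h, ← iterate_add_apply]
  have : k ≤ k * p := Nat.le_mul_of_pos_right k hp
  rw [show k * p - k + k = p * k by rw [mul_comm p]; omega]
  exact hper.mul_const k

theorem isM {n : ℕ} (X : ChordDiagram n) : IsM X.partner := fun i => ⟨X.invol i, X.noFix i⟩

theorem genus_iff {n g : ℕ} (hn : 1 ≤ n) (hg : 2 * g = n) (X : ChordDiagram n) :
    HasGenus X g ↔ Tr ((fun x : ZMod (2 * n) => x + 1) ∘ X.partner) := by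
  have : NeZero (2 * n) := ⟨by omega⟩
  set φ := (fun x : ZMod (2 * n) => x + 1) ∘ X.partner with hφ
  have hinj : Injective φ := (tr_add (2 * n)).inj.comp (isM X).inj
  have h1 : HasGenus X g ↔ Nat.card (Quot (Glue X)) = 1 := by
    unfold HasGenus numVertices
    constructor <;> intro h <;> omega
  rw [h1]
  constructor
  · intro h x y
    rw [Nat.card_eq_one_iff_unique] at h
    have hxy : Quot.mk (Glue X) x = Quot.mk (Glue X) y := h.1.elim _ _
    have := Quot.eqvGen_exact hxy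
    induction this with
    | rel u v huv =>
      obtain ⟨i, rfl, rfl⟩ := huv
      apply back hinj (k := 1)
      show X.partner (X.partner i) + 1 = i + 1
      rw [X.invol]
    | refl u => exact ⟨0, rfl⟩
    | symm u v _ ih =>
      obtain ⟨k, hk⟩ := ih (h.1.elim _ _)
      exact back hinj hk
    | trans u v w _ _ ih1 ih2 =>
      obtain ⟨k, hk⟩ := ih1 (h.1.elim _ _)
      obtain ⟨l, hl⟩ := ih2 (h.1.elim _ _)
      exact ⟨l + k, by rw [iterate_add_apply, hk, hl]⟩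
  · intro h
    rw [Nat.card_eq_one_iff_unique]
    refine ⟨⟨?_⟩, ⟨Quot.mk _ 0⟩⟩
    have hstep : ∀ w, Quot.mk (Glue X) (φ w) = Quot.mk (Glue X) w := by
      intro w
      apply Quot.sound
      exact ⟨X.partner w, rfl, (X.invol w).symm⟩
    have hst : ∀ (k : ℕ) w, Quot.mk (Glue X) (φ^[k] w) = Quot.mk (Glue X) w := by
      intro k
      induction k with
      | zero => intro w; rfl
      | succ k ih => intro w; rw [iterate_succ_apply', hstep, ih]
    intro a b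
    induction a using Quot.inductionOn with
    | _ a =>
      induction b using Quot.inductionOn with
      | _ b =>
        obtain ⟨k, hk⟩ := h a b
        rw [← hk, hst]

theorem walk_of_rc {n g : ℕ} (hn : 1 ≤ n) (hg : 2 * g = n) {k : ℕ}
    {σ ρ : ZMod (2 * n) → ZMod (2 * n)} (h : Rc (fun x : ZMod (2 * n) => x + 1) k σ ρ) :
    ∀ X Y : {X : ChordDiagram n // HasGenus X g}, X.1.partner = σ → Y.1.partner = ρ →
      ∃ w : (G n g).Walk X Y, w.length ≤ k := by
  induction h with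
  | refl k σ =>
    intro X Y hX hY
    have : X = Y := Subtype.ext (ChordDiagram.ext (hX.trans hY.symm))
    subst this
    exact ⟨SimpleGraph.Walk.nil, by simp⟩
  | @step k σ ρ σ' h1 h2 _ ih =>
    intro X Y hX hY
    let Z0 : ChordDiagram n := ⟨ρ, fun i => (h2.1 i).1, fun i => (h2.1 i).2⟩
    have hZ0 : HasGenus Z0 g := (genus_iff hn hg Z0).2 h2.2
    let Z : {X : ChordDiagram n // HasGenus X g} := ⟨Z0, hZ0⟩
    obtain ⟨w, hw⟩ := ih Z Y rfl hY
    have hadj : (G n g).Adj X Z := by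
      unfold G
      rw [SimpleGraph.fromRel_adj]
      obtain ⟨A, C, q1, q2, q3, q4, q5, q6, q7⟩ := h1
      constructor
      · intro he
        have hp : σ = ρ := by rw [← hX, he]
        apply q2
        rw [← q4, hp]
      · left
        rw [← hX] at q2 q5 q6 q7
        refine ⟨A, C, q1.symm, ?_, q3, q4, q5, q6, q7⟩
        intro hC
        apply q2
        rw [hC, X.1.invol]
    exact ⟨SimpleGraph.Walk.cons hadj w, by simp [hw]⟩

theorem dist_bound (n g : ℕ) (hn : 4 ≤ n) (hg : 2 * g = n)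
    (X Y : {X : ChordDiagram n // HasGenus X g}) (hX : ¬ IsBolza X.1) (hY : ¬ IsBolza Y.1) :
    (G n g).Reachable X Y ∧ (G n g).dist X Y ≤ 12 * n := by
  have : NeZero (2 * n) := ⟨by omega⟩
  have hτ := tr_add (2 * n)
  have hcard : Fintype.card (ZMod (2 * n)) = 4 * g := by rw [ZMod.card]; omega
  have hv : ∀ X : {X : ChordDiagram n // HasGenus X g},
      Valid (fun x : ZMod (2 * n) => x + 1) X.1.partner := fun X =>
    ⟨isM X.1, (genus_iff (by omega) hg X.1).1 X.2⟩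
  have hB : ∀ X : {X : ChordDiagram n // HasGenus X g}, ¬ IsBolza X.1 →
      ¬ Cm (fun x : ZMod (2 * n) => x + 1) X.1.partner := by
    intro X hX hC
    apply hX
    intro i
    obtain ⟨k, hk, hk'⟩ := cm_half hτ (isM X.1) hC i
    rw [iter_add] at hk'
    rw [hk', show k = n by omega]
  have hR := main g (by omega) _ _ hτ hcard X.1.partner Y.1.partner (hv X) (hv Y)
    (Or.inr ⟨hB X hX, hB Y hY⟩)
  obtain ⟨w, hw⟩ := walk_of_rc (by omega) hg hR X Y rfl rfl
  refine ⟨⟨w⟩, le_trans (SimpleGraph.dist_le w) (le_trans hw (by omega))⟩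

theorem D_bound (n g : ℕ) (hn : 4 ≤ n) (hg : 2 * g = n) : D n g ≤ 12 * n := by
  unfold D
  rcases Set.eq_empty_or_nonempty {d | ∃ X Y : {X : ChordDiagram n // HasGenus X g},
    ¬ (2 * g = n ∧ IsBolza X.1) ∧ ¬ (2 * g = n ∧ IsBolza Y.1) ∧ d = (G n g).dist X Y} with h | h
  · rw [h]; simp
  · apply csSup_le h
    rintro d ⟨X, Y, hX, hY, rfl⟩
    exact (dist_bound n g hn hg X Y (fun h => hX ⟨hg, h⟩) (fun h => hY ⟨hg, h⟩)).2

theorem small (c : ℝ) (hc : 0 < c) : ∃ n g : ℕ, 3 ≤ n ∧ 2 * g ≤ n ∧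
    (D n g : ℝ) < c * (n + (g : ℝ) ^ 2) := by
  obtain ⟨m, hm⟩ := exists_nat_gt (24 / c)
  refine ⟨2 * (m + 2), m + 2, by omega, le_rfl, ?_⟩
  have h1 : D (2 * (m + 2)) (m + 2) ≤ 12 * (2 * (m + 2)) := D_bound _ _ (by omega) rfl
  have h2 : (D (2 * (m + 2)) (m + 2) : ℝ) ≤ 12 * (2 * (m + 2)) := by exact_mod_cast h1
  have h3 : 24 < c * m := by
    rw [div_lt_iff₀ hc] at hm
    linarith
  have hm0 : (0 : ℝ) ≤ m := Nat.cast_nonneg m
  push_cast
  nlinarith [mul_pos hc (show (0 : ℝ) < m + 2 by linarith)]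

/-- In maximal genus `g = n / 2 ≥ 2` any two non-Bolza diagrams are at distance at most `12 n`;
so `D(n, n/2) ≤ 12 n`, the lower bound of Q1 fails for every constant `c > 0`, and Q1 is false. -/
theorem result :
    (∀ n g : ℕ, 4 ≤ n → 2 * g = n → ∀ X Y : {X : ChordDiagram n // HasGenus X g},
      ¬ IsBolza X.1 → ¬ IsBolza Y.1 →
        (G n g).Reachable X Y ∧ (G n g).dist X Y ≤ 12 * n) ∧
    (∀ n g : ℕ, 4 ≤ n → 2 * g = n → D n g ≤ 12 * n) ∧
    (∀ c : ℝ, 0 < c → ∃ n g : ℕ, 3 ≤ n ∧ 2 * g ≤ n ∧ (D n g : ℝ) < c * (n + (g : ℝ) ^ 2)) ∧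
    ¬ ∃ c C : ℝ, 0 < c ∧ c ≤ C ∧ ∀ n g : ℕ, 3 ≤ n → 2 * g ≤ n →
      c * (n + (g : ℝ) ^ 2) ≤ D n g ∧ (D n g : ℝ) ≤ C * (n + (g : ℝ) ^ 2) := by
  refine ⟨dist_bound, D_bound, small, ?_⟩
  rintro ⟨c, C, hc, -, h⟩
  obtain ⟨n, g, h1, h2, h3⟩ := small c hc
  exact absurd (h n g h1 h2).1 (not_le.2 h3)

end Pool.Agent.Results.MP_84806a_co.LinearDiameter
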